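import Pool.Agent.Q220.DualBound.Prod

/-!
# The exceptional infeasible vectors
-/

set_option autoImplicit false

open Finset
open scoped Classical

noncomputable section

namespace Q220.DualBound.Cfg

variable {n N : ℕ} (C : Cfg n N) (h : Fin n → ℕ)

/-- The infeasible vectors with large jumps and a large coefficient. -/
def bad (K : ℝ) (i : Fin N) (x : Fin n → ℕ) : Prop :=
  0 < C.c h i x ∧ (∀ j, h j < x j → (K + 1) * C.v h i j (x j - 1) < C.v h i j (x j)) ∧
    C.t - C.ft h h ≤ K * C.c h i x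

/-- The bad vectors with a given coordinate of the smallest jump. -/
def cls (K : ℝ) (i : Fin N) (l : Fin n) (y : Fin n → ℕ) : Finset (Fin n → ℕ) :=
  (C.Xh h).filter fun x => C.bad h K i x ∧ h l < x l ∧
    (∀ j, h j < x j → C.v h i j (x j - 1) * C.v h i l (x l) ≤
      C.v h i l (x l - 1) * C.v h i j (x j)) ∧
    y l + 1 = x l ∧ (∀ j, j ≠ l → x j ≤ y j)

theorem prod_three {l j1 j2 : Fin n} (h1 : l ≠ j1) (h2 : l ≠ j2) (h3 : j1 ≠ j2) (F : Fin n → ℝ) :
    ∏ j, F j = F l * (F j1 * (F j2 * ∏ j ∈ ((univ.erase l).erase j1).erase j2, F j)) := by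
  rw [mul_prod_erase _ F (by simp [h2.symm, h3.symm]), mul_prod_erase _ F (by simp [h1.symm]),
    mul_prod_erase _ F (mem_univ l)]

theorem pos_of_bad {i : Fin N} {x : Fin n → ℕ} (hb : 0 < C.c h i x) :
    0 < C.a i ∧ ∀ j, 0 < C.v h i j (x j) := by
  have h1 : 0 < C.a i * ∏ j, C.v h i j (x j) := hb.trans_le (C.c_le h i x)
  have h2 : 0 ≤ ∏ j, C.v h i j (x j) := prod_nonneg fun j _ => C.v_nonneg h i j _
  have h3 := C.ha i
  have h4 : ∏ j, C.v h i j (x j) ≠ 0 := by
    intro h0
    rw [h0, mul_zero] at h1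
    exact lt_irrefl _ h1
  refine ⟨lt_of_le_of_ne h3 ?_, fun j => lt_of_le_of_ne (C.v_nonneg h i j _) ?_⟩
  · intro h0
    rw [← h0, zero_mul] at h1
    exact lt_irrefl _ h1
  · exact ((prod_ne_zero_iff.1 h4) j (mem_univ j)).symm

/-- Two bad vectors of the same class do not differ upwards in two coordinates. -/
theorem pair {K : ℝ} (hK : 0 ≤ K) {i : Fin N} {l : Fin n} {y x x' : Fin n → ℕ}
    (hy : y ∈ C.Yh h) (hx : x ∈ C.cls h K i l y) (hx' : x' ∈ C.cls h K i l y)
    {j1 j2 : Fin n} (hj : j1 ≠ j2) (h1 : x j1 < x' j1) (h2 : x j2 < x' j2) : False := by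
  rw [cls, mem_filter] at hx hx'
  obtain ⟨hxX, ⟨hc, -, ht⟩, -, -, hyl, hxy⟩ := hx
  obtain ⟨hxX', ⟨-, hjump, -⟩, -, hcross, hyl', hxy'⟩ := hx'
  have hhx := ((C.mem_Xh h).1 hxX).2
  have hhy := ((C.mem_Yh h).1 hy).2
  have hl1 : l ≠ j1 := by rintro rfl; omega
  have hl2 : l ≠ j2 := by rintro rfl; omega
  obtain ⟨ha, hpos⟩ := C.pos_of_bad h hc
  set P := ∏ j, C.v h i j (x j) with hP
  set Q := ∏ j, C.v h i j (y j) with hQ
  have hPpos : 0 < P := prod_pos fun j _ => hpos j
  -- the main estimate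
  have hmain : (K + 1) * P < Q := by
    rw [hP, hQ, prod_three hl1 hl2 hj, prod_three hl1 hl2 hj]
    set R := ∏ j ∈ ((univ.erase l).erase j1).erase j2, C.v h i j (x j) with hR
    set R' := ∏ j ∈ ((univ.erase l).erase j1).erase j2, C.v h i j (y j) with hR'
    have hRpos : 0 < R := prod_pos fun j _ => hpos j
    have hRR : R ≤ R' := by
      refine prod_le_prod (fun j _ => C.v_nonneg h i j _) fun j hj' => C.v_mono h i j ?_
      simp only [mem_erase, mem_univ, and_true] at hj'
      exact hxy j hj'.2.2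
    have e1 : y l = x l - 1 := by omega
    have e2 : x' l = x l := by omega
    have c1 := hcross j1 ((hhx j1).trans_lt h1)
    rw [e2] at c1
    have c2 := hjump j2 ((hhx j2).trans_lt h2)
    have m1 : C.v h i j1 (x j1) ≤ C.v h i j1 (x' j1 - 1) := C.v_mono h i j1 (by omega)
    have m2 : C.v h i j2 (x j2) ≤ C.v h i j2 (x' j2 - 1) := C.v_mono h i j2 (by omega)
    have m3 : C.v h i j1 (x' j1) ≤ C.v h i j1 (y j1) := C.v_mono h i j1 (hxy' j1 hl1.symm)
    have m4 : C.v h i j2 (x' j2) ≤ C.v h i j2 (y j2) := C.v_mono h i j2 (hxy' j2 hl2.symm)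
    rw [e1]
    have p0 := hpos l
    have p1 := hpos j1
    have p2 := hpos j2
    have n0 : 0 ≤ C.v h i l (x l - 1) := C.v_nonneg h i l _
    have n1 : 0 ≤ C.v h i j1 (x' j1) := C.v_nonneg h i j1 _
    have n2 : 0 ≤ C.v h i j2 (x' j2) := C.v_nonneg h i j2 _
    have n3 : 0 ≤ C.v h i j1 (y j1) := C.v_nonneg h i j1 _
    calc (K + 1) * (C.v h i l (x l) * (C.v h i j1 (x j1) * (C.v h i j2 (x j2) * R)))
        = (C.v h i j1 (x j1) * C.v h i l (x l)) * (((K + 1) * C.v h i j2 (x j2)) * R) := by ring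
      _ ≤ (C.v h i j1 (x j1) * C.v h i l (x l)) *
            (((K + 1) * C.v h i j2 (x' j2 - 1)) * R) := by
          apply mul_le_mul_of_nonneg_left _ (mul_pos p1 p0).le
          apply mul_le_mul_of_nonneg_right _ hRpos.le
          exact mul_le_mul_of_nonneg_left m2 (by linarith)
      _ < (C.v h i j1 (x j1) * C.v h i l (x l)) * (C.v h i j2 (x' j2) * R) := by
          apply mul_lt_mul_of_pos_left _ (mul_pos p1 p0)
          exact mul_lt_mul_of_pos_right c2 hRpos
      _ ≤ (C.v h i j1 (x' j1 - 1) * C.v h i l (x l)) * (C.v h i j2 (x' j2) * R) := by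
          apply mul_le_mul_of_nonneg_right _ (mul_nonneg n2 hRpos.le)
          exact mul_le_mul_of_nonneg_right m1 p0.le
      _ ≤ (C.v h i l (x l - 1) * C.v h i j1 (x' j1)) * (C.v h i j2 (x' j2) * R) :=
          mul_le_mul_of_nonneg_right c1 (mul_nonneg n2 hRpos.le)
      _ ≤ (C.v h i l (x l - 1) * C.v h i j1 (y j1)) * (C.v h i j2 (y j2) * R') := by
          apply mul_le_mul
          · exact mul_le_mul_of_nonneg_left m3 n0
          · exact mul_le_mul m4 hRR hRpos.le (C.v_nonneg h i j2 _)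
          · exact mul_nonneg n2 hRpos.le
          · exact mul_nonneg n0 n3
      _ = _ := by ring
  -- the upper bound
  have hup : C.a i * (Q - ∏ j, C.v h i j (h j)) ≤ C.t - C.ft h h := by
    have e : C.ft h y - C.ft h h =
        ∑ i', C.a i' * (∏ j, C.v h i' j (y j) - ∏ j, C.v h i' j (h j)) := by
      unfold ft
      rw [← sum_sub_distrib]
      exact sum_congr rfl fun i' _ => by ring
    have e2 : C.a i * (Q - ∏ j, C.v h i j (h j)) ≤ C.ft h y - C.ft h h := by
      rw [e]
      refine single_le_sum (f := fun i' => C.a i' * (∏ j, C.v h i' j (y j) -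
        ∏ j, C.v h i' j (h j))) (fun i' _ => ?_) (mem_univ i)
      apply mul_nonneg (C.ha i')
      rw [sub_nonneg]
      exact prod_le_prod (fun j _ => C.v_nonneg h i' j _) fun j _ => C.v_mono h i' j (hhy j)
    have := C.ft_Y h hy
    linarith
  have hPh : ∏ j, C.v h i j (h j) ≤ P :=
    prod_le_prod (fun j _ => C.v_nonneg h i j _) fun j _ => C.v_mono h i j (hhx j)
  have hcP : C.c h i x ≤ C.a i * P := C.c_le h i x
  have f1 : C.a i * (Q - ∏ j, C.v h i j (h j)) ≤ K * (C.a i * P) :=
    hup.trans (ht.trans (mul_le_mul_of_nonneg_left hcP hK))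
  have f2 : C.a i * Q ≤ C.a i * ((K + 1) * P) := by
    have := mul_le_mul_of_nonneg_left hPh ha.le
    linarith
  exact absurd (le_of_mul_le_mul_left f2 ha) (not_le.2 hmain)

/-- The pairs (coordinate, level). -/
def Ls : Finset ((_ : Fin n) × ℕ) := univ.sigma fun j => C.L h j

theorem card_Ls : (C.Ls h).card ≤ n * (C.φ h + 1) := by
  rw [Ls, card_sigma]
  have : ∀ j ∈ (univ : Finset (Fin n)), (C.L h j).card ≤ C.φ h + 1 := by
    intro j _
    unfold L φ
    exact (card_insert_le _ _).trans (Nat.add_le_add_right card_image_le 1)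
  refine (sum_le_card_nsmul _ _ _ this).trans ?_
  simp

/-- An infeasible vector is not below another one. -/
theorem exists_lt {x x' : Fin n → ℕ} (hx : x ∈ C.Xh h) (hx' : x' ∈ C.Xh h) (hne : x ≠ x') :
    ∃ j, x j < x' j := by
  by_contra hcon
  push Not at hcon
  obtain ⟨j, hj⟩ : ∃ j, x' j < x j := by
    by_contra hcon'
    push Not at hcon'
    exact hne (le_antisymm hcon' hcon)
  have hh : h j ≤ x' j := ((C.mem_Xh h).1 hx').2 j
  obtain ⟨y, hy, h1, h2, -⟩ := C.pred h hx (j := j) (by omega)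
  apply C.hXY x' ((C.mem_Xh h).1 hx').1 y ((C.mem_Yh h).1 hy).1
  intro i
  by_cases hi : i = j
  · subst hi
    have h3 : x' i ≤ y i := by omega
    exact h3
  · exact (hcon i).trans (h2 i hi)

theorem card_cls {K : ℝ} (hK : 0 ≤ K) {i : Fin N} {l : Fin n} {y : Fin n → ℕ}
    (hy : y ∈ C.Yh h) : (C.cls h K i l y).card ≤ (n * (C.φ h + 1)) ^ 2 := by
  rcases (C.cls h K i l y).eq_empty_or_nonempty with he | ⟨x0, hx0⟩
  · rw [he, card_empty]
    exact Nat.zero_le _
  have hx0' : x0 ∈ C.Xh h := (mem_filter.1 hx0).1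
  have hsub : C.cls h K i l y ⊆ ((C.Ls h) ×ˢ (C.Ls h)).image
      (fun p => Function.update (Function.update x0 p.1.1 p.1.2) p.2.1 p.2.2) := by
    intro x hx
    have hxX : x ∈ C.Xh h := (mem_filter.1 hx).1
    rw [mem_image]
    by_cases hne : x = x0
    · refine ⟨(⟨l, x0 l⟩, ⟨l, x0 l⟩), ?_, ?_⟩
      · simp only [mem_product, Ls, mem_sigma, mem_univ, true_and, and_self]
        exact C.mem_L h hx0' l
      · simp [hne]
    · obtain ⟨j1, hj1⟩ := C.exists_lt h hx0' hxX (Ne.symm hne)
      obtain ⟨j2, hj2⟩ := C.exists_lt h hxX hx0' hne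
      refine ⟨(⟨j1, x j1⟩, ⟨j2, x j2⟩), ?_, ?_⟩
      · simp only [mem_product, Ls, mem_sigma, mem_univ, true_and]
        exact ⟨C.mem_L h hxX j1, C.mem_L h hxX j2⟩
      · funext j
        by_cases e2 : j = j2
        · subst e2
          simp
        · rw [Function.update_of_ne e2]
          by_cases e1 : j = j1
          · subst e1
            simp
          · rw [Function.update_of_ne e1]
            apply le_antisymm
            · by_contra hcon
              push Not at hcon
              exact C.pair h hK hy hx hx0 e2 hcon hj2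
            · by_contra hcon
              push Not at hcon
              exact C.pair h hK hy hx0 hx e1 hcon hj1
  refine (card_le_card hsub).trans (card_image_le.trans ?_)
  rw [card_product, ← pow_two]
  exact Nat.pow_le_pow_left (C.card_Ls h) 2

theorem ne_h {x : Fin n → ℕ} (hφ : 1 ≤ C.φ h) (hx : x ∈ C.Xh h) : x ≠ h := by
  rintro rfl
  rw [C.φ_X ((C.mem_Xh x).1 hx).1] at hφ
  omega

/-- The set of all bad vectors. -/
def badset (K : ℝ) (i : Fin N) : Finset (Fin n → ℕ) := (C.Xh h).filter (C.bad h K i)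

theorem card_badset {K : ℝ} (hK : 0 ≤ K) (hφ : 1 ≤ C.φ h) (i : Fin N) :
    (C.badset h K i).card ≤ (n * C.φ h) * (n * (C.φ h + 1)) ^ 2 := by
  have hsub : C.badset h K i ⊆ ((univ : Finset (Fin n)) ×ˢ C.Yh h).biUnion
      (fun p => C.cls h K i p.1 p.2) := by
    intro x hx
    rw [badset, mem_filter] at hx
    obtain ⟨hx, hb⟩ := hx
    have hhx := ((C.mem_Xh h).1 hx).2
    obtain ⟨-, hpos⟩ := C.pos_of_bad h hb.1
    have hne : (univ.filter fun j => h j < x j).Nonempty := by
      rw [nonempty_iff_ne_empty]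
      intro he
      apply C.ne_h h hφ hx
      apply le_antisymm _ hhx
      intro j
      by_contra hcon
      push Not at hcon
      have : j ∈ univ.filter fun j => h j < x j := by simp [hcon]
      rw [he] at this
      exact absurd this (notMem_empty _)
    obtain ⟨l, hl, hmax⟩ := exists_max_image _
      (fun j => C.v h i j (x j - 1) / C.v h i j (x j)) hne
    rw [mem_filter] at hl
    obtain ⟨y, hy, h1, h2, -⟩ := C.pred h hx hl.2
    rw [mem_biUnion]
    refine ⟨(l, y), by simp [hy], ?_⟩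
    rw [cls, mem_filter]
    refine ⟨hx, hb, hl.2, fun j hj => ?_, h1, h2⟩
    have := hmax j (by simp [hj])
    rw [div_le_div_iff₀ (hpos j) (hpos l)] at this
    exact this
  refine (card_le_card hsub).trans ((card_biUnion_le_card_mul _ _ ((n * (C.φ h + 1)) ^ 2)
    ?_).trans ?_)
  · rintro ⟨l, y⟩ hp
    rw [mem_product] at hp
    exact C.card_cls h hK hp.2
  · rw [card_product, card_univ, Fintype.card_fin]
    exact le_rfl

/-- The vectors which differ from `h` in one coordinate. -/
def typeA : Finset (Fin n → ℕ) := ((univ : Finset (Fin n)) ×ˢ C.Yh h).image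
  (fun p => Function.update h p.1 (p.2 p.1 + 1))

theorem card_typeA : (C.typeA h).card ≤ n * C.φ h := by
  refine card_image_le.trans ?_
  rw [card_product, card_univ, Fintype.card_fin]
  exact le_rfl

/-- The good vectors. -/
def Good (K : ℝ) : Finset (Fin n → ℕ) :=
  (C.Xh h).filter fun x => x ∉ C.typeA h ∧ ∀ i, ¬ C.bad h K i x

theorem card_Good {K : ℝ} (hK : 0 ≤ K) (hφ : 1 ≤ C.φ h) :
    C.ψ h ≤ (C.Good h K).card + (n * C.φ h + N * ((n * C.φ h) * (n * (C.φ h + 1)) ^ 2)) := by
  have hsub : C.Xh h ⊆ C.Good h K ∪ (C.typeA h ∪ univ.biUnion (C.badset h K)) := by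
    intro x hx
    simp only [mem_union, mem_biUnion, mem_univ, true_and, Good, mem_filter, badset]
    by_cases h1 : x ∈ C.typeA h
    · exact Or.inr (Or.inl h1)
    · by_cases h2 : ∃ i, C.bad h K i x
      · obtain ⟨i, hi⟩ := h2
        exact Or.inr (Or.inr ⟨i, hx, hi⟩)
      · push Not at h2
        exact Or.inl ⟨hx, h1, h2⟩
  unfold ψ
  refine (card_le_card hsub).trans ((card_union_le _ _).trans ?_)
  refine Nat.add_le_add_left ((card_union_le _ _).trans ?_) _
  refine Nat.add_le_add (C.card_typeA h) ?_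
  refine (card_biUnion_le_card_mul _ _ _ fun i _ => C.card_badset h hK hφ i).trans ?_
  simp

end Q220.DualBound.Cfg
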