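import Mathlib

/-!
# Monotone inequalities on integer boxes: definitions
-/

set_option autoImplicit false

open Finset

noncomputable section

namespace Q220.DualBound

variable {n : ℕ}

/-- The maximal feasible vectors of the box `0 ≤ x ≤ c`: the feasible vectors `x` such that for every
`j` the vector `x + 1^j` is not in the box or is not feasible. -/
def maxFeasible (c : Fin n → ℕ) (P : (Fin n → ℕ) → Prop) : Set (Fin n → ℕ) :=
  {x | x ≤ c ∧ P x ∧ ∀ j, ¬ (x + Pi.single j 1 ≤ c) ∨ ¬ P (x + Pi.single j 1)}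

/-- The minimal ones among the vectors of the box `0 ≤ x ≤ c` which are not below any member
of `A`. -/
def minNonDominated (c : Fin n → ℕ) (A : Set (Fin n → ℕ)) : Set (Fin n → ℕ) :=
  {x | Minimal (fun x => x ≤ c ∧ ∀ a ∈ A, ¬ x ≤ a) x}

/-- A monotone polynomial inequality `f x ≤ t` in `n` variables, with
`f x = ∑ i, a i * ∏ j ∈ H i, x j ^ d i j`. -/
structure PolyIneq (n : ℕ) where
  /-- the number of monomials -/
  N : ℕ
  /-- the supports of the monomials -/
  H : Fin N → Finset (Fin n)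
  /-- the coefficients -/
  a : Fin N → ℚ
  /-- the exponents -/
  d : Fin N → Fin n → ℕ
  /-- the right hand side -/
  t : ℝ
  nonempty : ∀ i, (H i).Nonempty
  a_pos : ∀ i, 0 < a i
  d_pos : ∀ i, ∀ j ∈ H i, 1 ≤ d i j
  t_pos : 0 < t
  cover : ∀ j, (univ.filter fun i => j ∈ H i).Nonempty

namespace PolyIneq

/-- The polynomial. -/
def f (P : PolyIneq n) (x : Fin n → ℕ) : ℝ := ∑ i, (P.a i : ℝ) * ∏ j ∈ P.H i, (x j : ℝ) ^ P.d i j

/-- The bounds `c j = ⌊t / min_{H ∋ j} a_H⌋` of the box. -/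
def c (P : PolyIneq n) (j : Fin n) : ℕ :=
  ⌊P.t / (((univ.filter fun i => j ∈ P.H i).inf' (P.cover j) P.a : ℚ) : ℝ)⌋₊

end PolyIneq

/-- A sum of `N` products of functions of one variable each. -/
def sumProd {N : ℕ} (a : Fin N → ℝ) (u : Fin N → Fin n → ℕ → ℝ) (x : Fin n → ℕ) : ℝ :=
  ∑ i, a i * ∏ j, u i j (x j)

end Q220.DualBound
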