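import Pool.Agent.Q220.DualBound.Main
import Pool.Agent.Q220.DualBound.Defs

/-!
# The polynomial dual bound
-/

set_option autoImplicit false

open Finset
open scoped Classical

noncomputable section

namespace Q220.DualBound

variable {n : ℕ}

theorem finite_box (c : Fin n → ℕ) : {x : Fin n → ℕ | x ≤ c}.Finite := Set.finite_Iic c

theorem not_feasible (c : Fin n → ℕ) (P : (Fin n → ℕ) → Prop) {x : Fin n → ℕ}
    (hx : x ∈ minNonDominated c (maxFeasible c P)) : ¬ P x := by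
  intro hP
  obtain ⟨⟨hxc, hno⟩, -⟩ := hx
  have hfin : {x : Fin n → ℕ | x ≤ c ∧ P x}.Finite := (finite_box c).subset fun x hx => hx.1
  obtain ⟨b, hb, hmax⟩ := hfin.exists_le_maximal (show x ∈ {x : Fin n → ℕ | x ≤ c ∧ P x} from
    ⟨hxc, hP⟩)
  refine hno b ⟨hmax.1.1, hmax.1.2, fun j => ?_⟩ hb
  by_contra hcon
  push Not at hcon
  have h1 := hmax.2 hcon (le_add_of_nonneg_right (by
    intro i
    exact Nat.zero_le _)) j
  simp at h1

theorem exists_pred (c : Fin n → ℕ) (Y : Set (Fin n → ℕ)) {x : Fin n → ℕ}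
    (hx : x ∈ minNonDominated c Y) {j : Fin n} (hj : 0 < x j) :
    ∃ y ∈ Y, Function.update x j (x j - 1) ≤ y := by
  by_contra hcon
  push Not at hcon
  obtain ⟨⟨hxc, -⟩, hmin⟩ := hx
  have hle : Function.update x j (x j - 1) ≤ x := by
    intro i
    by_cases hi : i = j
    · subst hi; simp
    · simp [Function.update_of_ne hi]
  have h1 : x j ≤ Function.update x j (x j - 1) j := hmin ⟨hle.trans hxc, hcon⟩ hle j
  rw [Function.update_self] at h1
  omega

theorem card_bound {N : ℕ} (a : Fin N → ℝ) (ha : ∀ i, 0 ≤ a i) (u : Fin N → Fin n → ℕ → ℝ)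
    (hu : ∀ i j x, 0 ≤ u i j x) (hm : ∀ i j, Monotone (u i j)) (t : ℝ)
    (X Y : Finset (Fin n → ℕ)) (hX : ∀ x ∈ X, t < sumProd a u x)
    (hY : ∀ y ∈ Y, sumProd a u y ≤ t) (hXY : ∀ x ∈ X, ∀ y ∈ Y, ¬ x ≤ y)
    (hP : ∀ x ∈ X, ∀ j, 0 < x j → ∃ y ∈ Y, Function.update x j (x j - 1) ≤ y) :
    X.card ≤ 1 + 6 * (N + 1) * n ^ 3 * Y.card ^ 3 * (Y.card + 1) ^ 2 := by
  have h := Cfg.card_X_le ⟨a, u, t, X, Y, ha, hu, hm, hX, hY, hXY, hP⟩
  refine h.trans (Nat.add_le_add_left ?_ 1)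
  simp only
  set m := Y.card
  unfold Cfg.cst Cfg.rho
  rcases Nat.eq_zero_or_pos n with rfl | hn
  · simp
  have h1 : n * m ≤ n ^ 3 * m * (m + 1) ^ 2 := by
    have : 1 ≤ n ^ 2 * (m + 1) ^ 2 := Nat.one_le_iff_ne_zero.2 (by positivity)
    calc n * m = n * m * 1 := by ring
      _ ≤ n * m * (n ^ 2 * (m + 1) ^ 2) := Nat.mul_le_mul_left _ this
      _ = _ := by ring
  have h2 : n * m * (2 * m * (N + 1)) ≤ 2 * (N + 1) * (n ^ 3 * m * (m + 1) ^ 2) := by
    have h3 : m ≤ n ^ 2 * (m + 1) ^ 2 := by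
      have : 1 ≤ n ^ 2 := Nat.one_le_pow _ _ hn
      nlinarith
    calc n * m * (2 * m * (N + 1)) = 2 * (N + 1) * (n * m * m) := by ring
      _ ≤ 2 * (N + 1) * (n * m * (n ^ 2 * (m + 1) ^ 2)) :=
        Nat.mul_le_mul_left _ (Nat.mul_le_mul_left _ h3)
      _ = _ := by ring
  calc 2 * (n * m + N * (n * m * (n * (m + 1)) ^ 2) + n * m * (2 * m * (N + 1))) * m ^ 2 ≤
        2 * (n ^ 3 * m * (m + 1) ^ 2 + N * (n * m * (n * (m + 1)) ^ 2) +
          2 * (N + 1) * (n ^ 3 * m * (m + 1) ^ 2)) * m ^ 2 := by gcongr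
    _ = 6 * (N + 1) * n ^ 3 * m ^ 3 * (m + 1) ^ 2 := by ring

theorem system_bound {r N : ℕ} (a : Fin r → Fin N → ℝ) (ha : ∀ s i, 0 ≤ a s i)
    (u : Fin r → Fin N → Fin n → ℕ → ℝ) (hu : ∀ s i j x, 0 ≤ u s i j x)
    (hm : ∀ s i j, Monotone (u s i j)) (t : Fin r → ℝ) (c : Fin n → ℕ)
    (Y : Finset (Fin n → ℕ))
    (hY : (Y : Set (Fin n → ℕ)) ⊆ maxFeasible c fun x => ∀ s, sumProd (a s) (u s) x ≤ t s) :
    (minNonDominated c Y ∩ minNonDominated c
      (maxFeasible c fun x => ∀ s, sumProd (a s) (u s) x ≤ t s)).encard ≤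
      ((r * (1 + 6 * (N + 1) * n ^ 3 * Y.card ^ 3 * (Y.card + 1) ^ 2) : ℕ) : ℕ∞) := by
  set P : (Fin n → ℕ) → Prop := fun x => ∀ s, sumProd (a s) (u s) x ≤ t s with hPdef
  have hfin : (minNonDominated c Y ∩ minNonDominated c (maxFeasible c P)).Finite :=
    (finite_box c).subset fun x hx => hx.1.1.1
  set Z := hfin.toFinset with hZ
  have hmem : ∀ x, x ∈ Z ↔ x ∈ minNonDominated c Y ∧
      x ∈ minNonDominated c (maxFeasible c P) := by
    intro x
    rw [hZ, Set.Finite.mem_toFinset, Set.mem_inter_iff]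
  have hsub : Z ⊆ univ.biUnion fun s => Z.filter fun x => t s < sumProd (a s) (u s) x := by
    intro x hx
    have h1 := not_feasible c P ((hmem x).1 hx).2
    rw [hPdef] at h1
    push Not at h1
    obtain ⟨s, hs⟩ := h1
    rw [mem_biUnion]
    exact ⟨s, mem_univ _, mem_filter.2 ⟨hx, hs⟩⟩
  have hcard : Z.card ≤ r * (1 + 6 * (N + 1) * n ^ 3 * Y.card ^ 3 * (Y.card + 1) ^ 2) := by
    refine (card_le_card hsub).trans ((card_biUnion_le_card_mul _ _
      (1 + 6 * (N + 1) * n ^ 3 * Y.card ^ 3 * (Y.card + 1) ^ 2) fun s _ => ?_).trans ?_)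
    · apply card_bound (a s) (ha s) (u s) (hu s) (hm s) (t s)
      · intro x hx
        exact (mem_filter.1 hx).2
      · intro y hy
        exact (hY hy).2.1 s
      · intro x hx y hy
        exact ((hmem x).1 (mem_filter.1 hx).1).1.1.2 y hy
      · intro x hx j hj
        exact exists_pred c Y ((hmem x).1 (mem_filter.1 hx).1).1 hj
    · simp
  have : (minNonDominated c Y ∩ minNonDominated c (maxFeasible c P)).encard = Z.card := by
    rw [hfin.encard_eq_coe_toFinset_card]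
  rw [this]
  exact_mod_cast hcard

theorem poly_bound (P : PolyIneq n) (Y : Finset (Fin n → ℕ))
    (hY : (Y : Set (Fin n → ℕ)) ⊆ maxFeasible P.c fun x => P.f x ≤ P.t) :
    (minNonDominated P.c Y ∩ minNonDominated P.c (maxFeasible P.c fun x => P.f x ≤ P.t)).encard ≤
      ((1 + 6 * (P.N + 1) * n ^ 3 * Y.card ^ 3 * (Y.card + 1) ^ 2 : ℕ) : ℕ∞) := by
  have key : (fun x : Fin n → ℕ => P.f x ≤ P.t) = fun x => ∀ s : Fin 1,
      sumProd ((fun (_ : Fin 1) i => (P.a i : ℝ)) s)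
        ((fun (_ : Fin 1) i j (z : ℕ) => if j ∈ P.H i then (z : ℝ) ^ P.d i j else 1) s) x ≤
        (fun _ : Fin 1 => P.t) s := by
    funext x
    apply propext
    have h1 : P.f x = sumProd (fun i => (P.a i : ℝ))
        (fun i j (z : ℕ) => if j ∈ P.H i then (z : ℝ) ^ P.d i j else 1) x := by
      unfold PolyIneq.f sumProd
      refine sum_congr rfl fun i _ => ?_
      congr 1
      rw [prod_ite_mem, univ_inter]
    rw [h1]
    exact ⟨fun h _ => h, fun h => h 0⟩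
  rw [key] at hY ⊢
  have := system_bound (fun (_ : Fin 1) i => (P.a i : ℝ))
    (fun _ i => by exact_mod_cast (P.a_pos i).le)
    (fun (_ : Fin 1) i j (z : ℕ) => if j ∈ P.H i then (z : ℝ) ^ P.d i j else 1)
    (fun _ i j x => by
      split_ifs
      · positivity
      · exact zero_le_one)
    (fun _ i j x y hxy => by
      dsimp only
      split_ifs
      · have : (x : ℝ) ≤ y := by exact_mod_cast hxy
        exact pow_le_pow_left₀ (Nat.cast_nonneg _) this _
      · exact le_rfl) (fun _ => P.t) P.c Y hY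
  rwa [one_mul] at this

end Q220.DualBound
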