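import Pool.Agent.Q220.DualBound.Bad

/-!
# The induction
-/

set_option autoImplicit false

open Finset
open scoped Classical

noncomputable section

namespace Q220.DualBound.Cfg

variable {n N : ℕ} (C : Cfg n N) (h : Fin n → ℕ)

/-- `g` is below `x` and differs from it in exactly one coordinate. -/
def line (x g : Fin n → ℕ) : Prop := ∃ j, g j < x j ∧ ∀ i, i ≠ j → g i = x i

theorem card_line {K : ℝ} (g : Fin n → ℕ) (hg : h ≤ g) :
    ((C.Good h K).filter fun x => line x g).card ≤ n * C.φ h := by
  have hsub : ((C.Good h K).filter fun x => line x g) ⊆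
      ((univ : Finset (Fin n)) ×ˢ C.Yh h).image
        (fun p => Function.update g p.1 (p.2 p.1 + 1)) := by
    intro x hx
    rw [mem_filter, Good, mem_filter] at hx
    obtain ⟨⟨hx, -⟩, j, hj, hjo⟩ := hx
    obtain ⟨y, hy, h1, -⟩ := C.pred h hx ((hg j).trans_lt hj)
    rw [mem_image]
    refine ⟨(j, y), by simp [hy], ?_⟩
    funext i
    by_cases hi : i = j
    · subst hi
      simp [h1]
    · simp only [Function.update_of_ne hi]
      exact hjo i hi
  refine (card_le_card hsub).trans (card_image_le.trans ?_)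
  rw [card_product, card_univ, Fintype.card_fin]
  exact le_rfl

theorem t0_nonneg (hφ : 1 ≤ C.φ h) : 0 ≤ C.t - C.ft h h := by
  obtain ⟨y, hy⟩ : (C.Yh h).Nonempty := by
    rw [← card_pos]; exact hφ
  have h1 := C.ft_Y h hy
  have h2 := C.expand_Y h hy
  have h3 : 0 ≤ ∑ g ∈ (C.GG h).filter (· ≤ y), C.cc h g := sum_nonneg fun g _ => C.cc_nonneg h g
  rw [C.ft_h h hφ]
  linarith

/-- The coefficient of a good vector is charged. -/
theorem charge {K : ℝ} (hK : 0 < K) (hφ : 1 ≤ C.φ h) {x : Fin n → ℕ} (hx : x ∈ C.Good h K)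
    (i : Fin N) : C.c h i x ≤ K * ∑ g ∈ (C.GG h).filter (line x), C.c h i g +
      (C.t - C.ft h h) / K := by
  rw [Good, mem_filter] at hx
  obtain ⟨hx, hA, hB⟩ := hx
  have ht := C.t0_nonneg h hφ
  have hhx := ((C.mem_Xh h).1 hx).2
  have hs : 0 ≤ ∑ g ∈ (C.GG h).filter (line x), C.c h i g := sum_nonneg fun g _ => C.c_nonneg h i g
  have ht' : 0 ≤ (C.t - C.ft h h) / K := div_nonneg ht hK.le
  have hs' := mul_nonneg hK.le hs
  rcases (C.c_nonneg h i x).eq_or_lt with h0 | h0
  · rw [← h0]; linarith
  by_cases hch : ∃ j, h j < x j ∧ C.v h i j (x j) ≤ (K + 1) * C.v h i j (x j - 1)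
  · obtain ⟨j, hj, hv⟩ := hch
    obtain ⟨y, hy, hy1, hy2, hy3⟩ := C.pred h hx hj
    -- another coordinate
    obtain ⟨j', hjj, hj'⟩ : ∃ j', j' ≠ j ∧ h j' < x j' := by
      by_contra hcon
      push Not at hcon
      apply hA
      rw [typeA, mem_image]
      refine ⟨(j, y), by simp [hy], ?_⟩
      funext i
      by_cases hi : i = j
      · subst hi
        simp [hy1]
      · simp only [Function.update_of_ne hi]
        exact le_antisymm (hhx i) (hcon i hi)
    -- the sum over the line
    have hline : ∑ w ∈ Icc (h j) (x j - 1), C.c h i (Function.update x j w) ≤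
        ∑ g ∈ (C.GG h).filter (line x), C.c h i g := by
      rw [← sum_image (s := Icc (h j) (x j - 1)) (g := fun w => Function.update x j w)
        (f := fun g => C.c h i g)]
      · apply sum_le_sum_of_subset_of_nonneg
        · intro g hg
          rw [mem_image] at hg
          obtain ⟨w, hw, rfl⟩ := hg
          rw [mem_Icc] at hw
          have hle : Function.update x j w ≤ x := by
            intro i
            by_cases hi : i = j
            · subst hi
              simp only [Function.update_self]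
              omega
            · simp only [Function.update_of_ne hi]
              exact le_rfl
          rw [mem_filter, mem_GG]
          refine ⟨⟨⟨?_, ?_⟩, ?_, ?_⟩, ?_⟩
          · intro i
            by_cases hi : i = j
            · subst hi
              simp only [Function.update_self]
              exact hw.1
            · simp only [Function.update_of_ne hi]
              exact hhx i
          · intro i
            exact (hle i).trans (C.le_M_X ((C.mem_Xh h).1 hx).1 i)
          · intro he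
            have := congrFun he j'
            rw [Function.update_of_ne hjj] at this
            omega
          · apply C.φ_pos_of_le ((C.mem_Yh h).1 hy).1
            refine le_trans ?_ hy3
            intro i
            by_cases hi : i = j
            · subst hi
              simp only [Function.update_self]
              exact hw.2
            · simp only [Function.update_of_ne hi]
              exact le_rfl
          · refine ⟨j, ?_, fun i hi => Function.update_of_ne hi _ _⟩
            rw [Function.update_self]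
            omega
        · intro g _ _
          exact C.c_nonneg h i g
      · intro w _ w' _ hww
        have := congrFun hww j
        simpa using this
    -- the value of the sum
    have hR : ∀ w, C.c h i (Function.update x j w) =
        dd (C.v h i j) (h j) w * (C.a i * ∏ j' ∈ univ.erase j, dd (C.v h i j') (h j') (x j')) := by
      intro w
      unfold c
      rw [← mul_prod_erase _ _ (mem_univ j)]
      simp only [Function.update_self]
      have : ∏ j' ∈ univ.erase j, dd (C.v h i j') (h j') (Function.update x j w j') =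
          ∏ j' ∈ univ.erase j, dd (C.v h i j') (h j') (x j') := by
        refine prod_congr rfl fun j' hj' => ?_
        rw [Function.update_of_ne (ne_of_mem_erase hj')]
      rw [this]
      ring
    set R := C.a i * ∏ j' ∈ univ.erase j, dd (C.v h i j') (h j') (x j') with hRdef
    have hRnn : 0 ≤ R := mul_nonneg (C.ha i) (prod_nonneg fun j' _ =>
      dd_nonneg (C.v_nonneg h i j') (C.v_mono h i j') _ _)
    have hsum : ∑ w ∈ Icc (h j) (x j - 1), C.c h i (Function.update x j w) =
        C.v h i j (x j - 1) * R := by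
      simp only [hR]
      rw [← sum_mul, sum_dd _ (by omega)]
    have hcx : C.c h i x = (C.v h i j (x j) - C.v h i j (x j - 1)) * R := by
      have := hR (x j)
      rw [Function.update_eq_self, dd, if_pos hj] at this
      exact this
    have h1 : C.c h i x ≤ K * (C.v h i j (x j - 1) * R) := by
      calc C.c h i x = (C.v h i j (x j) - C.v h i j (x j - 1)) * R := hcx
        _ ≤ (K * C.v h i j (x j - 1)) * R := by
            apply mul_le_mul_of_nonneg_right _ hRnn
            linarith
        _ = K * (C.v h i j (x j - 1) * R) := by ring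
    rw [← hsum] at h1
    have h2 := mul_le_mul_of_nonneg_left hline hK.le
    linarith
  · push Not at hch
    have h1 : ¬ (C.t - C.ft h h ≤ K * C.c h i x) := by
      intro h2
      exact hB i ⟨h0, fun j hj => hch j hj, h2⟩
    push Not at h1
    have h2 : C.c h i x < (C.t - C.ft h h) / K := by
      rw [lt_div_iff₀ hK, mul_comm]
      exact h1
    linarith

theorem double_count {α β : Type*} (s : Finset α) (t : Finset β) (r : α → β → Prop)
    (w : β → ℝ) : ∑ x ∈ s, ∑ g ∈ t.filter (r x), w g =
      ∑ g ∈ t, ((s.filter fun x => r x g).card : ℝ) * w g := by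
  simp only [sum_filter]
  rw [sum_comm]
  refine sum_congr rfl fun g _ => ?_
  rw [← sum_filter, sum_const, nsmul_eq_mul]

theorem sum_good {K : ℝ} (hK : 0 < K) (hφ : 1 ≤ C.φ h) :
    ∑ x ∈ C.Good h K, C.cc h x ≤ K * (n * C.φ h) * ∑ g ∈ C.GG h, C.cc h g +
      (C.Good h K).card * (N * ((C.t - C.ft h h) / K)) := by
  have h1 : ∀ x ∈ C.Good h K, C.cc h x ≤ K * ∑ g ∈ (C.GG h).filter (line x), C.cc h g +
      N * ((C.t - C.ft h h) / K) := by
    intro x hx
    have h2 : C.cc h x ≤ ∑ i, (K * ∑ g ∈ (C.GG h).filter (line x), C.c h i g +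
        (C.t - C.ft h h) / K) := sum_le_sum fun i _ => C.charge h hK hφ hx i
    rw [sum_add_distrib, ← mul_sum, sum_const, card_univ, Fintype.card_fin, nsmul_eq_mul,
      sum_comm] at h2
    exact h2
  refine (sum_le_sum h1).trans ?_
  rw [sum_add_distrib, ← mul_sum, double_count, sum_const, nsmul_eq_mul, mul_assoc]
  refine add_le_add_left (mul_le_mul_of_nonneg_left ?_ hK.le) _
  rw [mul_sum]
  refine sum_le_sum fun g hg => mul_le_mul_of_nonneg_right ?_ (C.cc_nonneg h g)
  rw [mem_GG] at hg
  exact_mod_cast C.card_line h g hg.1.1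

theorem key1 {K : ℝ} (hK : 0 < K) (hφ : 1 ≤ C.φ h) (hne : (C.Good h K).Nonempty) :
    (C.Good h K).card * (C.t - C.ft h h) < ∑ g ∈ C.GG h, (C.ψ g : ℝ) * C.cc h g +
      K * (n * C.φ h) * ∑ g ∈ C.GG h, C.cc h g +
      (C.Good h K).card * (N * ((C.t - C.ft h h) / K)) := by
  have h1 : ∀ x ∈ C.Good h K, C.t - C.ft h h <
      ∑ g ∈ (C.GG h).filter (· ≤ x), C.cc h g + C.cc h x := by
    intro x hx
    have hx' : x ∈ C.Xh h := (mem_filter.1 hx).1
    have h2 := C.ft_X h hx'
    have h3 := C.expand_X h hφ hx'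
    rw [C.ft_h h hφ]
    linarith
  have h2 := sum_lt_sum_of_nonempty hne h1
  rw [sum_const, nsmul_eq_mul, sum_add_distrib,
    double_count (C.Good h K) (C.GG h) (fun x g => g ≤ x)] at h2
  have h3 := C.sum_good h hK hφ
  have h4 : ∑ g ∈ C.GG h, (((C.Good h K).filter fun x => g ≤ x).card : ℝ) * C.cc h g ≤
      ∑ g ∈ C.GG h, (C.ψ g : ℝ) * C.cc h g := by
    refine sum_le_sum fun g _ => mul_le_mul_of_nonneg_right ?_ (C.cc_nonneg h g)
    have : ((C.Good h K).filter fun x => g ≤ x).card ≤ C.ψ g := by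
      apply card_le_card
      intro x hx
      rw [mem_filter, Good, mem_filter, mem_Xh] at hx
      rw [mem_Xh]
      exact ⟨hx.1.1.1, hx.2⟩
    exact_mod_cast this
  linarith

theorem key2 (hφ : 1 ≤ C.φ h) :
    ∑ g ∈ C.GG h, (C.φ g : ℝ) * C.cc h g ≤ C.φ h * (C.t - C.ft h h) := by
  have h1 : ∀ y ∈ C.Yh h, ∑ g ∈ (C.GG h).filter (· ≤ y), C.cc h g ≤ C.t - C.ft h h := by
    intro y hy
    have h2 := C.ft_Y h hy
    have h3 := C.expand_Y h hy
    rw [C.ft_h h hφ]
    linarith
  have h2 := sum_le_sum h1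
  rw [sum_const, nsmul_eq_mul, double_count (C.Yh h) (C.GG h) (fun x g => g ≤ x)] at h2
  refine le_trans (le_of_eq ?_) h2
  refine sum_congr rfl fun g hg => ?_
  have : C.φ g = ((C.Yh h).filter fun x => g ≤ x).card := by
    unfold φ
    congr 1
    ext y
    rw [mem_GG] at hg
    rw [mem_filter, mem_Yh, mem_Yh]
    constructor
    · rintro ⟨h1, h2⟩
      exact ⟨⟨h1, hg.1.1.trans h2⟩, h2⟩
    · rintro ⟨⟨h1, -⟩, h2⟩
      exact ⟨h1, h2⟩
  rw [this]

/-- The number of exceptions. -/
def rho (n N m : ℕ) : ℕ := n * m + N * ((n * m) * (n * (m + 1)) ^ 2)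

/-- The constant. -/
def cst (n N m : ℕ) : ℕ := 2 * (rho n N m + n * m * (2 * m * (N + 1)))

theorem rho_mono {n N m m' : ℕ} (h : m ≤ m') : rho n N m ≤ rho n N m' := by
  unfold rho
  gcongr

theorem final_ineq {r q q' k : ℝ} (hr : 0 ≤ r) (hk : 1 ≤ k) (hq : q' ≤ q) :
    (2 * (r + q) * (k - 1) + q') * k * (2 * k) ≤ (2 * (r + q) * k ^ 2 - r) * (2 * k - 1) := by
  have e1 : (2 * (r + q) * (k - 1) + q') * k * (2 * k) ≤
      (2 * (r + q) * (k - 1) + q) * k * (2 * k) := by
    apply mul_le_mul_of_nonneg_right _ (by linarith)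
    apply mul_le_mul_of_nonneg_right _ (by linarith)
    linarith
  have e3 : (2 * (r + q) * k ^ 2 - r) * (2 * k - 1) -
      (2 * (r + q) * (k - 1) + q) * k * (2 * k) =
      r * (k ^ 2 + (k - 1) ^ 2) := by ring
  have e4 : 0 ≤ r * (k ^ 2 + (k - 1) ^ 2) := by positivity
  linarith

theorem step {m : ℕ} (hφ : 1 ≤ C.φ h) (hm : C.φ h ≤ m)
    (IH : ∀ g, 1 ≤ C.φ g → C.φ g < C.φ h → C.ψ g ≤ cst n N m * C.φ g ^ 2) :
    C.ψ h ≤ cst n N m * C.φ h ^ 2 := by
  by_contra hcon
  push Not at hcon
  set k := C.φ h with hk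
  have hm1 : 1 ≤ m := hφ.trans hm
  set K : ℝ := 2 * m * (N + 1) with hKdef
  have hmR : (1 : ℝ) ≤ m := by exact_mod_cast hm1
  have hNR : (0 : ℝ) ≤ N := Nat.cast_nonneg _
  have hkR : (1 : ℝ) ≤ k := by exact_mod_cast hφ
  have hkm : (k : ℝ) ≤ m := by exact_mod_cast hm
  have hK : 0 < K := by positivity
  have hcard := C.card_Good h hK.le hφ
  rw [← hk] at hcard
  change C.ψ h ≤ _ + rho n N k at hcard
  have hrho := rho_mono (n := n) (N := N) hm
  set G := (C.Good h K).card with hG
  -- lower bound of the number of good vectors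
  have hGN : cst n N m * k ^ 2 < G + rho n N m := by omega
  have hcR : (cst n N m : ℝ) = 2 * (rho n N m + n * m * K) := by
    rw [cst, hKdef]
    push_cast
    ring
  have hGR : (cst n N m : ℝ) * k ^ 2 < G + rho n N m := by exact_mod_cast hGN
  have hrR : (0 : ℝ) ≤ rho n N m := Nat.cast_nonneg _
  have hnR : (0 : ℝ) ≤ n := Nat.cast_nonneg _
  have hnmK : 0 ≤ (n : ℝ) * m * K := by positivity
  have hcst0 : (0 : ℝ) ≤ cst n N m := Nat.cast_nonneg _
  have hGpos : 0 < G := by
    have h1 : (rho n N m : ℝ) ≤ cst n N m := by rw [hcR]; linarith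
    have h2 : (cst n N m : ℝ) ≤ cst n N m * k ^ 2 :=
      le_mul_of_one_le_right hcst0 (one_le_pow₀ hkR)
    have h3 : (0 : ℝ) < G := by linarith
    exact_mod_cast h3
  have hne : (C.Good h K).Nonempty := card_pos.1 hGpos
  have k1 := C.key1 h hK hφ hne
  have k2 := C.key2 h hφ
  have ht := C.t0_nonneg h hφ
  rw [← hk, ← hG] at k1
  rw [← hk] at k2
  set t0 := C.t - C.ft h h with ht0
  -- comparison of the sums
  set W : ℝ := cst n N m * (k - 1) + K * (n * k) with hW
  have hW0 : 0 ≤ W := by
    have : (0 : ℝ) ≤ k - 1 := by linarith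
    positivity
  have k3 : ∑ g ∈ C.GG h, (C.ψ g : ℝ) * C.cc h g + K * (n * k) * ∑ g ∈ C.GG h, C.cc h g ≤
      W * ∑ g ∈ C.GG h, (C.φ g : ℝ) * C.cc h g := by
    rw [mul_sum, mul_sum, ← sum_add_distrib]
    refine sum_le_sum fun g hg => ?_
    rw [mem_GG] at hg
    obtain ⟨⟨hg1, -⟩, hg2, hg3⟩ := hg
    by_cases hL : ∃ j, g j ∉ C.L h j
    · rw [C.cc_eq_zero h hg1 hL]
      simp
    · push Not at hL
      have hlt := C.φ_lt h hg1 hg2 hL
      have hψ := IH g hg3 hlt
      have hψR : (C.ψ g : ℝ) ≤ cst n N m * C.φ g ^ 2 := by exact_mod_cast hψ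
      have hφR : (1 : ℝ) ≤ C.φ g := by exact_mod_cast hg3
      have hφk : (C.φ g : ℝ) ≤ k - 1 := by
        have : C.φ g + 1 ≤ k := hlt
        have : ((C.φ g : ℝ) + 1) ≤ k := by exact_mod_cast this
        linarith
      have e1 : (C.ψ g : ℝ) ≤ cst n N m * (k - 1) * C.φ g := by
        refine hψR.trans ?_
        rw [mul_assoc]
        apply mul_le_mul_of_nonneg_left _ hcst0
        nlinarith
      have e2 : K * (n * k) ≤ K * (n * k) * C.φ g :=
        le_mul_of_one_le_right (by positivity) hφR
      have e3 : (C.ψ g : ℝ) + K * (n * k) ≤ W * C.φ g := by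
        rw [hW, add_mul]
        exact add_le_add e1 e2
      have := mul_le_mul_of_nonneg_right e3 (C.cc_nonneg h g)
      linarith
  have k4 : (G : ℝ) * t0 < W * (k * t0) + G * (N * (t0 / K)) := by
    have := mul_le_mul_of_nonneg_left k2 hW0
    linarith
  -- `N / K ≤ 1 / (2 k)`
  have k5 : (N : ℝ) * (t0 / K) ≤ t0 / (2 * k) := by
    rw [mul_div_assoc', div_le_div_iff₀ hK (by linarith)]
    have : (N : ℝ) * (2 * k) ≤ K := by
      rw [hKdef]
      nlinarith
    calc (N : ℝ) * t0 * (2 * k) = t0 * (N * (2 * k)) := by ring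
      _ ≤ t0 * K := mul_le_mul_of_nonneg_left this ht
  have k6 : (G : ℝ) * t0 < W * (k * t0) + G * (t0 / (2 * k)) := by
    have := mul_le_mul_of_nonneg_left k5 (Nat.cast_nonneg (α := ℝ) G)
    linarith
  have htpos : 0 < t0 := by
    rcases ht.eq_or_lt with h0 | h0
    · rw [← h0] at k6
      simp at k6
    · exact h0
  have k7 : (G : ℝ) * (2 * k) < W * k * (2 * k) + G := by
    have h2k : (0 : ℝ) < 2 * k := by linarith
    have e1 : (G : ℝ) * (t0 / (2 * k)) * (2 * k) = G * t0 := by
      field_simp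
    have e2 := mul_lt_mul_of_pos_right k6 h2k
    have e3 : ((G : ℝ) * (2 * k)) * t0 < (W * k * (2 * k) + G) * t0 := by
      calc ((G : ℝ) * (2 * k)) * t0 = (G : ℝ) * t0 * (2 * k) := by ring
        _ < (W * (k * t0) + G * (t0 / (2 * k))) * (2 * k) := e2
        _ = (W * k * (2 * k)) * t0 + G * (t0 / (2 * k)) * (2 * k) := by ring
        _ = (W * k * (2 * k) + G) * t0 := by rw [e1]; ring
    exact lt_of_mul_lt_mul_right e3 htpos.le
  -- contradiction
  have k8 : (cst n N m : ℝ) * k ^ 2 - rho n N m ≤ G := by linarith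
  have k9 : ((cst n N m : ℝ) * k ^ 2 - rho n N m) * (2 * k - 1) < W * k * (2 * k) := by
    have : (0 : ℝ) ≤ 2 * k - 1 := by linarith
    have := mul_le_mul_of_nonneg_right k8 this
    linarith
  rw [hW, hcR] at k9
  have hq' : K * (n * k) ≤ n * m * K := by
    have : K * n * k ≤ K * n * m := mul_le_mul_of_nonneg_left hkm (by positivity)
    linarith
  exact absurd k9 (not_lt.2 (final_ineq hrR hkR hq'))

theorem bound (m : ℕ) : ∀ k, ∀ h : Fin n → ℕ, C.φ h = k → 1 ≤ k → k ≤ m →
    C.ψ h ≤ cst n N m * k ^ 2 := by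
  intro k
  induction k using Nat.strong_induction_on with
  | _ k ih =>
    intro h hk hk1 hkm
    rw [← hk]
    refine C.step h (by omega) (by omega) fun g hg1 hg2 => ?_
    exact ih (C.φ g) (by omega) g rfl hg1 (by omega)

/-- **The polynomial bound.** -/
theorem card_X_le : C.X.card ≤ 1 + cst n N C.Y.card * C.Y.card ^ 2 := by
  have h0 : ∀ x : Fin n → ℕ, (fun _ => 0) ≤ x := fun x j => Nat.zero_le _
  have hX : C.Xh (fun _ => 0) = C.X := filter_true_of_mem fun x _ => h0 x
  have hY : C.Yh (fun _ => 0) = C.Y := filter_true_of_mem fun x _ => h0 x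
  rcases Nat.eq_zero_or_pos C.Y.card with h1 | h1
  · have hφ : C.φ (fun _ => 0) = 0 := by rw [φ, hY, h1]
    have : C.X.card ≤ 1 := by
      rw [card_le_one]
      intro a ha b hb
      rw [C.eq_of_φ_zero hφ (x := a) (by rw [hX]; exact ha),
        C.eq_of_φ_zero hφ (x := b) (by rw [hX]; exact hb)]
    omega
  · have := C.bound C.Y.card C.Y.card (fun _ => 0) (by rw [φ, hY]) h1 le_rfl
    rw [ψ, hX] at this
    omega

end Q220.DualBound.Cfg
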