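import Mathlib

/-!
# A polynomial dual bound for sums of products of monotone functions of one variable

`f x = ∑ i, a i * ∏ j, u i j (x j)`.  Let `X` be a set of vectors with `f > t` and `Y` a set of
vectors with `f ≤ t` such that every vector of `X` which is decreased by one in one coordinate is
below some vector of `Y`.  Then `|X|` is at most polynomial in `n`, `N` and `|Y|`.

The proof is by induction on the number `φ h` of the vectors of `Y` which are above `h`, and bounds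
the number `ψ h` of the vectors of `X` which are above `h`.
-/

set_option autoImplicit false

open Finset
open scoped Classical

noncomputable section

namespace Q220.DualBound

/-! ### One variable -/

/-- The increments of `v` starting from `h`. -/
def dd (v : ℕ → ℝ) (h g : ℕ) : ℝ := if h < g then v g - v (g - 1) else v g

theorem dd_nonneg {v : ℕ → ℝ} (h0 : ∀ x, 0 ≤ v x) (hm : Monotone v) (h g : ℕ) : 0 ≤ dd v h g := by
  unfold dd
  split_ifs
  · exact sub_nonneg.2 (hm (Nat.sub_le _ _))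
  · exact h0 g

theorem dd_le {v : ℕ → ℝ} (h0 : ∀ x, 0 ≤ v x) (h g : ℕ) : dd v h g ≤ v g := by
  unfold dd
  split_ifs
  · linarith [h0 (g - 1)]
  · exact le_rfl

theorem sum_dd (v : ℕ → ℝ) {h x : ℕ} (hx : h ≤ x) : ∑ g ∈ Icc h x, dd v h g = v x := by
  induction x, hx using Nat.le_induction with
  | base => simp [dd]
  | succ x hx ih =>
    rw [sum_Icc_succ_top (by omega), ih, dd, if_pos (by omega)]
    simp

/-- Round down to the next element of `L`. -/
def rnd (L : Finset ℕ) (x : ℕ) : ℕ := (L.filter (· ≤ x)).sup id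

theorem rnd_le (L : Finset ℕ) (x : ℕ) : rnd L x ≤ x := by
  unfold rnd
  apply Finset.sup_le
  intro b hb
  exact (mem_filter.1 hb).2

theorem rnd_mono (L : Finset ℕ) : Monotone (rnd L) := by
  intro x y hxy
  unfold rnd
  apply Finset.sup_mono
  intro b hb
  rw [mem_filter] at hb ⊢
  exact ⟨hb.1, hb.2.trans hxy⟩

theorem rnd_mem {L : Finset ℕ} {x : ℕ} (hx : x ∈ L) : rnd L x = x := by
  apply le_antisymm (rnd_le L x)
  unfold rnd
  exact Finset.le_sup (f := id) (mem_filter.2 ⟨hx, le_rfl⟩)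

theorem rnd_pred {L : Finset ℕ} {x : ℕ} (hx : x ∉ L) : rnd L x = rnd L (x - 1) := by
  unfold rnd
  congr 1
  ext b
  simp only [mem_filter]
  refine and_congr_right fun hb => ?_
  have : b ≠ x := fun h => hx (h ▸ hb)
  omega

/-! ### Configurations -/

/-- The data. -/
structure Cfg (n N : ℕ) where
  /-- coefficients -/
  a : Fin N → ℝ
  /-- factors -/
  u : Fin N → Fin n → ℕ → ℝ
  /-- threshold -/
  t : ℝ
  /-- infeasible vectors -/
  X : Finset (Fin n → ℕ)
  /-- feasible vectors -/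
  Y : Finset (Fin n → ℕ)
  ha : ∀ i, 0 ≤ a i
  hu : ∀ i j x, 0 ≤ u i j x
  hm : ∀ i j, Monotone (u i j)
  hX : ∀ x ∈ X, t < ∑ i, a i * ∏ j, u i j (x j)
  hY : ∀ y ∈ Y, ∑ i, a i * ∏ j, u i j (y j) ≤ t
  hXY : ∀ x ∈ X, ∀ y ∈ Y, ¬ x ≤ y
  hP : ∀ x ∈ X, ∀ j, 0 < x j → ∃ y ∈ Y, Function.update x j (x j - 1) ≤ y

namespace Cfg

variable {n N : ℕ} (C : Cfg n N) (h : Fin n → ℕ)

/-- The infeasible vectors above `h`. -/
def Xh : Finset (Fin n → ℕ) := C.X.filter (h ≤ ·)

/-- The feasible vectors above `h`. -/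
def Yh : Finset (Fin n → ℕ) := C.Y.filter (h ≤ ·)

theorem mem_Xh {x : Fin n → ℕ} : x ∈ C.Xh h ↔ x ∈ C.X ∧ h ≤ x := by simp [Xh]
theorem mem_Yh {x : Fin n → ℕ} : x ∈ C.Yh h ↔ x ∈ C.Y ∧ h ≤ x := by simp [Yh]

/-- The relevant levels. -/
def L (j : Fin n) : Finset ℕ := insert (h j) ((C.Yh h).image (fun y => y j + 1))

/-- The rounded factors. -/
def v (i : Fin N) (j : Fin n) (x : ℕ) : ℝ := C.u i j (rnd (C.L h j) x)

/-- The coefficients of the expansion, one summand. -/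
def c (i : Fin N) (g : Fin n → ℕ) : ℝ := C.a i * ∏ j, dd (C.v h i j) (h j) (g j)

/-- The coefficients of the expansion. -/
def cc (g : Fin n → ℕ) : ℝ := ∑ i, C.c h i g

/-- The rounded function. -/
def ft (x : Fin n → ℕ) : ℝ := ∑ i, C.a i * ∏ j, C.v h i j (x j)

theorem v_nonneg (i : Fin N) (j : Fin n) (x : ℕ) : 0 ≤ C.v h i j x := C.hu _ _ _

theorem v_mono (i : Fin N) (j : Fin n) : Monotone (C.v h i j) :=
  fun _ _ hxy => C.hm i j (rnd_mono _ hxy)

theorem c_nonneg (i : Fin N) (g : Fin n → ℕ) : 0 ≤ C.c h i g :=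
  mul_nonneg (C.ha i) (prod_nonneg fun j _ => dd_nonneg (C.v_nonneg h i j) (C.v_mono h i j) _ _)

theorem cc_nonneg (g : Fin n → ℕ) : 0 ≤ C.cc h g := sum_nonneg fun i _ => C.c_nonneg h i g

theorem c_le (i : Fin N) (g : Fin n → ℕ) : C.c h i g ≤ C.a i * ∏ j, C.v h i j (g j) :=
  mul_le_mul_of_nonneg_left (prod_le_prod
    (fun j _ => dd_nonneg (C.v_nonneg h i j) (C.v_mono h i j) _ _)
    (fun j _ => dd_le (C.v_nonneg h i j) _ _)) (C.ha i)

/-- The predecessors. -/
theorem pred {x : Fin n → ℕ} (hx : x ∈ C.Xh h) {j : Fin n} (hj : h j < x j) :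
    ∃ y ∈ C.Yh h, y j + 1 = x j ∧ (∀ i, i ≠ j → x i ≤ y i) ∧
      Function.update x j (x j - 1) ≤ y := by
  rw [mem_Xh] at hx
  obtain ⟨y, hy, hle⟩ := C.hP x hx.1 j (by omega)
  have h1 : ∀ i, i ≠ j → x i ≤ y i := by
    intro i hi
    have := hle i
    rwa [Function.update_of_ne hi] at this
  have h2 : x j - 1 ≤ y j := by
    have := hle j
    rwa [Function.update_self] at this
  have h3 : y j < x j := by
    by_contra hcon
    push Not at hcon
    apply C.hXY x hx.1 y hy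
    intro i
    by_cases hi : i = j
    · subst hi; exact hcon
    · exact h1 i hi
  refine ⟨y, ?_, by omega, h1, hle⟩
  rw [mem_Yh]
  refine ⟨hy, fun i => ?_⟩
  by_cases hi : i = j
  · subst hi
    exact (Nat.le_sub_one_of_lt hj).trans h2
  · exact (hx.2 i).trans (h1 i hi)

theorem mem_L {x : Fin n → ℕ} (hx : x ∈ C.Xh h) (j : Fin n) : x j ∈ C.L h j := by
  have h1 : h j ≤ x j := ((C.mem_Xh h).1 hx).2 j
  rcases h1.eq_or_lt with h2 | h2
  · rw [← h2]; exact mem_insert_self _ _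
  · obtain ⟨y, hy, h3, -⟩ := C.pred h hx h2
    rw [← h3]
    exact mem_insert_of_mem (mem_image_of_mem _ hy)

theorem ft_X {x : Fin n → ℕ} (hx : x ∈ C.Xh h) : C.t < C.ft h x := by
  have h1 := C.hX x ((C.mem_Xh h).1 hx).1
  have h2 : C.ft h x = ∑ i, C.a i * ∏ j, C.u i j (x j) := by
    unfold ft v
    refine sum_congr rfl fun i _ => ?_
    congr 1
    refine prod_congr rfl fun j _ => ?_
    rw [rnd_mem (C.mem_L h hx j)]
  rw [h2]; exact h1

theorem ft_Y {y : Fin n → ℕ} (hy : y ∈ C.Yh h) : C.ft h y ≤ C.t := by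
  refine le_trans ?_ (C.hY y ((C.mem_Yh h).1 hy).1)
  unfold ft v
  refine sum_le_sum fun i _ => mul_le_mul_of_nonneg_left ?_ (C.ha i)
  exact prod_le_prod (fun j _ => C.hu _ _ _) (fun j _ => C.hm _ _ (rnd_le _ _))

/-- A big box. -/
def M (j : Fin n) : ℕ := (C.X ∪ C.Y).sup (fun x => x j)

/-- The box of the indices of the expansion. -/
def G : Finset (Fin n → ℕ) := Fintype.piFinset fun j => Icc (h j) (C.M j)

theorem le_M_X {x : Fin n → ℕ} (hx : x ∈ C.X) (j : Fin n) : x j ≤ C.M j :=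
  Finset.le_sup (f := fun x : Fin n → ℕ => x j) (mem_union_left _ hx)

theorem le_M_Y {x : Fin n → ℕ} (hx : x ∈ C.Y) (j : Fin n) : x j ≤ C.M j :=
  Finset.le_sup (f := fun x : Fin n → ℕ => x j) (mem_union_right _ hx)

theorem mem_G {g : Fin n → ℕ} : g ∈ C.G h ↔ h ≤ g ∧ ∀ j, g j ≤ C.M j := by
  simp only [G, Fintype.mem_piFinset, mem_Icc, Pi.le_def, forall_and]

theorem ft_eq {x : Fin n → ℕ} (hx : h ≤ x) (hM : ∀ j, x j ≤ C.M j) :
    C.ft h x = ∑ g ∈ (C.G h).filter (· ≤ x), C.cc h g := by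
  have h1 : (C.G h).filter (· ≤ x) = Fintype.piFinset fun j => Icc (h j) (x j) := by
    ext g
    simp only [mem_filter, mem_G, Fintype.mem_piFinset, mem_Icc, Pi.le_def]
    constructor
    · rintro ⟨⟨h1, -⟩, h3⟩ j
      exact ⟨h1 j, h3 j⟩
    · intro h1
      exact ⟨⟨fun j => (h1 j).1, fun j => (h1 j).2.trans (hM j)⟩, fun j => (h1 j).2⟩
  unfold ft cc
  rw [sum_comm, h1]
  refine sum_congr rfl fun i _ => ?_
  unfold c
  rw [← mul_sum]
  congr 1
  rw [← prod_univ_sum (t := fun j => Icc (h j) (x j)) (f := fun j g => dd (C.v h i j) (h j) g)]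
  refine prod_congr rfl fun j _ => ?_
  rw [sum_dd _ (hx j)]

/-- The number of the feasible vectors above `g`. -/
def φ (g : Fin n → ℕ) : ℕ := (C.Yh g).card

/-- The number of the infeasible vectors above `g`. -/
def ψ (g : Fin n → ℕ) : ℕ := (C.Xh g).card

/-- The indices which are different from `h` and below some feasible vector. -/
def GG : Finset (Fin n → ℕ) := (C.G h).filter fun g => g ≠ h ∧ 1 ≤ C.φ g

theorem mem_GG {g : Fin n → ℕ} :
    g ∈ C.GG h ↔ (h ≤ g ∧ ∀ j, g j ≤ C.M j) ∧ g ≠ h ∧ 1 ≤ C.φ g := by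
  rw [GG, mem_filter, mem_G]

/-- A coefficient vanishes unless all coordinates of the index are levels. -/
theorem cc_eq_zero {g : Fin n → ℕ} (hg : h ≤ g) (hL : ∃ j, g j ∉ C.L h j) : C.cc h g = 0 := by
  obtain ⟨j, hj⟩ := hL
  unfold cc
  refine sum_eq_zero fun i _ => ?_
  unfold c
  have h1 : h j < g j := by
    apply lt_of_le_of_ne (hg j)
    intro h2
    apply hj
    rw [← h2]
    exact mem_insert_self _ _
  have h2 : dd (C.v h i j) (h j) (g j) = 0 := by
    rw [dd, if_pos h1, v, v, rnd_pred hj, sub_self]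
  rw [prod_eq_zero (mem_univ j) h2, mul_zero]

/-- If all coordinates are levels then fewer feasible vectors are above `g` than above `h`. -/
theorem φ_lt {g : Fin n → ℕ} (hg : h ≤ g) (hne : g ≠ h) (hL : ∀ j, g j ∈ C.L h j) :
    C.φ g < C.φ h := by
  obtain ⟨j, hj⟩ : ∃ j, g j ≠ h j := by
    by_contra hcon
    push Not at hcon
    exact hne (funext hcon)
  have h1 := hL j
  rw [L, mem_insert, mem_image] at h1
  obtain ⟨y, hy, h2⟩ := h1.resolve_left hj
  apply card_lt_card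
  rw [ssubset_iff_of_subset]
  · refine ⟨y, hy, ?_⟩
    rw [mem_Yh]
    rintro ⟨-, h3⟩
    have h4 : g j ≤ y j := h3 j
    have h5 : y j + 1 = g j := h2
    omega
  · intro z hz
    rw [mem_Yh] at hz ⊢
    exact ⟨hz.1, hg.trans hz.2⟩

/-- If no feasible vector is above `g` then an infeasible vector above `g` is equal to `g`. -/
theorem eq_of_φ_zero {g x : Fin n → ℕ} (h0 : C.φ g = 0) (hx : x ∈ C.Xh g) : x = g := by
  by_contra hne
  have hgx := ((C.mem_Xh g).1 hx).2
  obtain ⟨j, hj⟩ : ∃ j, g j < x j := by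
    by_contra hcon
    push Not at hcon
    exact hne (le_antisymm hcon hgx)
  obtain ⟨y, hy, -⟩ := C.pred g hx hj
  rw [φ, card_eq_zero] at h0
  rw [h0] at hy
  exact absurd hy (notMem_empty _)

theorem φ_X {x : Fin n → ℕ} (hx : x ∈ C.X) : C.φ x = 0 := by
  rw [φ, card_eq_zero, eq_empty_iff_forall_notMem]
  intro y hy
  rw [mem_Yh] at hy
  exact C.hXY x hx y hy.1 hy.2

theorem φ_pos_of_le {g y : Fin n → ℕ} (hy : y ∈ C.Y) (hg : g ≤ y) : 1 ≤ C.φ g := by
  rw [φ, Nat.one_le_iff_ne_zero, Ne, card_eq_zero]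
  intro h0
  have : y ∈ C.Yh g := (C.mem_Yh g).2 ⟨hy, hg⟩
  rw [h0] at this
  exact absurd this (notMem_empty _)

/-- The expansion at an infeasible vector. -/
theorem expand_X {x : Fin n → ℕ} (hφ : 1 ≤ C.φ h) (hx : x ∈ C.Xh h) :
    C.ft h x = C.cc h h + ∑ g ∈ (C.GG h).filter (· ≤ x), C.cc h g + C.cc h x := by
  obtain ⟨hx1, hx2⟩ := (C.mem_Xh h).1 hx
  rw [C.ft_eq h hx2 (C.le_M_X hx1)]
  have hne : x ≠ h := by
    rintro rfl
    rw [C.φ_X hx1] at hφ
    omega
  have hset : (C.G h).filter (· ≤ x) = insert h (insert x ((C.GG h).filter (· ≤ x))) := by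
    ext g
    simp only [mem_filter, mem_insert, mem_GG, mem_G]
    constructor
    · rintro ⟨h1, h2⟩
      by_cases h3 : g = h
      · exact Or.inl h3
      · right
        by_cases h4 : C.φ g = 0
        · left
          exact (C.eq_of_φ_zero h4 ((C.mem_Xh g).2 ⟨hx1, h2⟩)).symm
        · right
          exact ⟨⟨h1, h3, by omega⟩, h2⟩
    · rintro (rfl | rfl | h1)
      · exact ⟨⟨le_rfl, fun j => (hx2 j).trans (C.le_M_X hx1 j)⟩, hx2⟩
      · exact ⟨⟨hx2, C.le_M_X hx1⟩, le_rfl⟩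
      · exact ⟨h1.1.1, h1.2⟩
  rw [hset, sum_insert, sum_insert]
  · ring
  · simp only [mem_filter, mem_GG, not_and]
    intro h1
    have := h1.2.2
    rw [C.φ_X hx1] at this
    omega
  · rw [mem_insert]
    rintro (h1 | h1)
    · exact hne h1.symm
    · rw [mem_filter, mem_GG] at h1
      exact h1.1.2.1 rfl

/-- The expansion at a feasible vector. -/
theorem expand_Y {y : Fin n → ℕ} (hy : y ∈ C.Yh h) :
    C.ft h y = C.cc h h + ∑ g ∈ (C.GG h).filter (· ≤ y), C.cc h g := by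
  obtain ⟨hy1, hy2⟩ := (C.mem_Yh h).1 hy
  rw [C.ft_eq h hy2 (C.le_M_Y hy1)]
  have hset : (C.G h).filter (· ≤ y) = insert h ((C.GG h).filter (· ≤ y)) := by
    ext g
    simp only [mem_filter, mem_insert, mem_GG, mem_G]
    constructor
    · rintro ⟨h1, h2⟩
      by_cases h3 : g = h
      · exact Or.inl h3
      · right
        exact ⟨⟨h1, h3, C.φ_pos_of_le hy1 h2⟩, h2⟩
    · rintro (rfl | h1)
      · exact ⟨⟨le_rfl, fun j => (hy2 j).trans (C.le_M_Y hy1 j)⟩, hy2⟩
      · exact ⟨h1.1.1, h1.2⟩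
  rw [hset, sum_insert]
  rw [mem_filter, mem_GG]
  rintro ⟨h1, -⟩
  exact h1.2.1 rfl

theorem ft_h (hφ : 1 ≤ C.φ h) : C.ft h h = C.cc h h := by
  obtain ⟨y, hy⟩ : (C.Yh h).Nonempty := by
    rw [← card_pos]; exact hφ
  obtain ⟨hy1, hy2⟩ := (C.mem_Yh h).1 hy
  rw [C.ft_eq h le_rfl (fun j => (hy2 j).trans (C.le_M_Y hy1 j))]
  have : (C.G h).filter (· ≤ h) = {h} := by
    ext g
    simp only [mem_filter, mem_G, mem_singleton]
    constructor
    · rintro ⟨h1, h2⟩
      exact le_antisymm h2 h1.1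
    · rintro rfl
      exact ⟨⟨le_rfl, fun j => (hy2 j).trans (C.le_M_Y hy1 j)⟩, le_rfl⟩
  rw [this, sum_singleton]

end Cfg

end Q220.DualBound
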