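import Pool.Agent.Q220.DualBound.Final

/-!
# Second order cone inequalities

`sqrt (x Q x) + b x ≤ t` for a symmetric matrix `Q` and a vector `b` with non-negative entries.
-/

set_option autoImplicit false

open Finset
open scoped Classical

noncomputable section

namespace Q220.DualBound

/-- The data. -/
structure SCfg (n : ℕ) where
  /-- the matrix -/
  Q : Fin n → Fin n → ℝ
  /-- the vector -/
  b : Fin n → ℝ
  /-- threshold -/
  t : ℝ
  /-- infeasible vectors -/
  X : Finset (Fin n → ℕ)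
  /-- feasible vectors -/
  Y : Finset (Fin n → ℕ)
  hQ : ∀ i j, 0 ≤ Q i j
  hs : ∀ i j, Q i j = Q j i
  hb : ∀ i, 0 ≤ b i
  hX : ∀ x ∈ X, t < (∑ j, b j * (x j : ℝ)) ∨
    (t - ∑ j, b j * (x j : ℝ)) ^ 2 < ∑ i, ∑ j, Q i j * (x i : ℝ) * (x j : ℝ)
  hY : ∀ x ∈ Y, (∑ j, b j * (x j : ℝ)) ≤ t ∧
    ∑ i, ∑ j, Q i j * (x i : ℝ) * (x j : ℝ) ≤ (t - ∑ j, b j * (x j : ℝ)) ^ 2
  hXY : ∀ x ∈ X, ∀ y ∈ Y, ¬ x ≤ y
  hP : ∀ x ∈ X, ∀ j, 0 < x j → ∃ y ∈ Y, Function.update x j (x j - 1) ≤ y

namespace SCfg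

variable {n : ℕ} (C : SCfg n)

/-- The linear form. -/
def bt (x : Fin n → ℕ) : ℝ := ∑ j, C.b j * (x j : ℝ)

/-- The bilinear form. -/
def B (x y : Fin n → ℕ) : ℝ := ∑ i, ∑ j, C.Q i j * (x i : ℝ) * (y j : ℝ)

/-- The unit vector. -/
def e (l : Fin n) : Fin n → ℕ := Pi.single l 1

theorem bt_add (x y : Fin n → ℕ) : C.bt (x + y) = C.bt x + C.bt y := by
  simp only [bt, Pi.add_apply, Nat.cast_add, mul_add, sum_add_distrib]

theorem B_add_left (x y w : Fin n → ℕ) : C.B (x + y) w = C.B x w + C.B y w := by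
  simp only [B, Pi.add_apply, Nat.cast_add, mul_add, add_mul, sum_add_distrib]

theorem B_comm (x y : Fin n → ℕ) : C.B x y = C.B y x := by
  unfold B
  rw [sum_comm]
  refine sum_congr rfl fun i _ => sum_congr rfl fun j _ => ?_
  rw [C.hs j i]
  ring

theorem B_add_right (x y w : Fin n → ℕ) : C.B w (x + y) = C.B w x + C.B w y := by
  rw [B_comm, B_add_left, B_comm, C.B_comm y]

theorem bt_nonneg (x : Fin n → ℕ) : 0 ≤ C.bt x :=
  sum_nonneg fun j _ => mul_nonneg (C.hb j) (Nat.cast_nonneg _)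

theorem B_nonneg (x y : Fin n → ℕ) : 0 ≤ C.B x y :=
  sum_nonneg fun i _ => sum_nonneg fun j _ => mul_nonneg (mul_nonneg (C.hQ i j) (Nat.cast_nonneg _))
    (Nat.cast_nonneg _)

theorem bt_mono {x y : Fin n → ℕ} (h : x ≤ y) : C.bt x ≤ C.bt y := by
  have h1 : x + (y - x) = y := by
    funext i
    have : x i ≤ y i := h i
    simp only [Pi.add_apply, Pi.sub_apply]
    omega
  rw [← h1, bt_add]
  linarith [C.bt_nonneg (y - x)]

theorem B_mono_left {x y : Fin n → ℕ} (w : Fin n → ℕ) (h : x ≤ y) : C.B x w ≤ C.B y w := by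
  have h1 : x + (y - x) = y := by
    funext i
    have : x i ≤ y i := h i
    simp only [Pi.add_apply, Pi.sub_apply]
    omega
  rw [← h1, B_add_left]
  linarith [C.B_nonneg (y - x) w]

theorem B_mono {x y x' y' : Fin n → ℕ} (h : x ≤ y) (h' : x' ≤ y') : C.B x x' ≤ C.B y y' := by
  refine (C.B_mono_left x' h).trans ?_
  rw [C.B_comm y x', C.B_comm y y']
  exact C.B_mono_left y h'

theorem bt_e (l : Fin n) : C.bt (e l) = C.b l := by
  unfold bt e
  rw [sum_eq_single l]
  · simp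
  · intro j _ hj
    simp [Pi.single_eq_of_ne hj]
  · simp

theorem B_e (z : Fin n → ℕ) (l : Fin n) : C.B z (e l) = ∑ i, (z i : ℝ) * C.Q i l := by
  unfold B e
  refine sum_congr rfl fun i _ => ?_
  rw [sum_eq_single l]
  · simp
    ring
  · intro j _ hj
    simp [Pi.single_eq_of_ne hj]
  · simp

theorem B_ee (i l : Fin n) : C.B (e i) (e l) = C.Q i l := by
  rw [B_e, sum_eq_single i]
  · simp [e]
  · intro j _ hj
    simp [e, Pi.single_eq_of_ne hj]
  · simp

/-- The quadratic function. -/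
def G (x : Fin n → ℕ) : ℝ := C.B x x - (C.t - C.bt x) ^ 2

/-- Half of the increment of `G`. -/
def La (l : Fin n) (z : Fin n → ℕ) : ℝ :=
  C.B z (e l) + (C.t - C.bt z) * C.b l + (C.Q l l - C.b l ^ 2) / 2

theorem G_add (z : Fin n → ℕ) (l : Fin n) : C.G (z + e l) = C.G z + 2 * C.La l z := by
  unfold G La
  rw [B_add_left, B_add_right, B_add_right, bt_add, bt_e, B_ee, C.B_comm (e l) z]
  ring

/-- A class of predecessors of infeasible vectors. -/
def Zc (l : Fin n) (y : Fin n → ℕ) (z : Fin n → ℕ) : Prop :=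
  z + e l ∈ C.X ∧ C.bt (z + e l) ≤ C.t ∧ 0 < C.G (z + e l) ∧
    (∀ i w, w + e i = z + e l → C.G w ≤ C.G z) ∧ z ≤ y ∧ z l = y l

theorem feas_Y {x y : Fin n → ℕ} (hy : y ∈ C.Y) (h : x ≤ y) : C.bt x ≤ C.t ∧ C.G x ≤ 0 := by
  obtain ⟨h1, h2⟩ := C.hY y hy
  change C.bt y ≤ C.t at h1
  change C.B y y ≤ (C.t - C.bt y) ^ 2 at h2
  have h3 := C.bt_mono h
  have h4 := C.B_mono h h
  refine ⟨h3.trans h1, ?_⟩
  unfold G
  nlinarith

section pairs

variable {C} {l : Fin n} {y z z' : Fin n → ℕ}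

theorem La_pos (hy : y ∈ C.Y) (hz : C.Zc l y z) : 0 < C.La l z := by
  obtain ⟨-, -, h1, -, h2, -⟩ := hz
  have h3 := (C.feas_Y hy h2).2
  rw [G_add] at h1
  linarith

theorem tau_ge (hz : C.Zc l y z) : C.b l ≤ C.t - C.bt z := by
  have := hz.2.1
  rw [bt_add, bt_e] at this
  linarith

theorem B_le_La (hz : C.Zc l y z) : C.B z (e l) ≤ C.La l z := by
  have h1 := tau_ge hz
  have h2 := C.hb l
  have h3 := C.hQ l l
  unfold La
  nlinarith

theorem bl_le_La (hz : C.Zc l y z) : C.b l ^ 2 ≤ 2 * C.La l z := by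
  have h1 := tau_ge hz
  have h2 := C.hb l
  have h3 := C.hQ l l
  have h4 := C.B_nonneg z (e l)
  unfold La
  nlinarith

theorem add_sub_swap : z + (z' - z) = z' + (z - z') := by
  funext i
  simp only [Pi.add_apply, Pi.sub_apply]
  omega

/-- The upper estimate, from the feasibility of `y`. -/
theorem upper (hy : y ∈ C.Y) (hz : C.Zc l y z) (hz' : C.Zc l y z') :
    2 * C.B z' (z - z') + C.B (z - z') (z - z') + 2 * (C.t - C.bt z') * C.bt (z - z') -
      C.bt (z - z') ^ 2 < 2 * C.La l z' ∧ C.bt (z - z') ≤ C.t - C.bt z' := by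
  have hle : z' + (z - z') ≤ y := by
    intro i
    have h1 : z i ≤ y i := hz.2.2.2.2.1 i
    have h2 : z' i ≤ y i := hz'.2.2.2.2.1 i
    simp only [Pi.add_apply, Pi.sub_apply]
    omega
  obtain ⟨h1, h2⟩ := C.feas_Y hy hle
  have h3 := hz'.2.2.1
  rw [G_add] at h3
  rw [bt_add] at h1
  refine ⟨?_, by linarith⟩
  have h4 : C.G (z' + (z - z')) = C.G z' + (2 * C.B z' (z - z') + C.B (z - z') (z - z') +
      2 * (C.t - C.bt z') * C.bt (z - z') - C.bt (z - z') ^ 2) := by
    unfold G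
    rw [B_add_left, B_add_right, B_add_right, bt_add, C.B_comm (z - z') z']
    ring
  linarith

/-- The lower estimate, from the choice of `l`. -/
theorem lower_one (hz : C.Zc l y z) {i : Fin n} (hi : 0 < z i) :
    C.La l z - C.B (e i) (e l) - C.b i ^ 2 / 2 ≤
      C.B z (e i) + (C.t - C.bt z) * C.b i := by
  set w : Fin n → ℕ := z + e l - e i with hw
  have hwe : w + e i = z + e l := by
    funext j
    simp only [hw, Pi.add_apply, Pi.sub_apply]
    by_cases hj : j = i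
    · subst hj
      simp only [e, Pi.single_eq_same]
      omega
    · have : e i j = 0 := by simp [e, Pi.single_eq_of_ne hj]
      rw [this]
      simp
  have h1 := hz.2.2.2.1 i w hwe
  have h2 : C.G w + 2 * C.La i w = C.G z + 2 * C.La l z := by
    rw [← G_add, ← G_add, hwe]
  have h3 : C.B w (e i) + C.Q i i = C.B z (e i) + C.B (e i) (e l) := by
    have := congrArg (fun x => C.B x (e i)) hwe
    simp only [B_add_left] at this
    rw [B_ee, C.B_comm (e l) (e i)] at this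
    exact this
  have h4 : C.bt w + C.b i = C.bt z + C.b l := by
    have := congrArg C.bt hwe
    rwa [bt_add, bt_add, bt_e, bt_e] at this
  have h5 : C.La i w = C.B w (e i) + (C.t - C.bt w) * C.b i + (C.Q i i - C.b i ^ 2) / 2 := rfl
  have h6 : C.bt w = C.bt z + C.b l - C.b i := by linarith
  have h7 : C.B w (e i) = C.B z (e i) + C.B (e i) (e l) - C.Q i i := by linarith
  rw [h6, h7] at h5
  have h8 := C.hQ i i
  have h9 := mul_nonneg (C.hb i) (C.hb l)
  nlinarith

theorem B_expand (x p : Fin n → ℕ) : C.B x p = ∑ i, (p i : ℝ) * C.B x (e i) := by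
  rw [B_comm]
  unfold B
  refine sum_congr rfl fun i _ => ?_
  rw [← B, B_e, mul_sum]
  refine sum_congr rfl fun j _ => ?_
  rw [C.hs j i]
  ring

theorem lower (hz : C.Zc l y z) (p : Fin n → ℕ) (hp : p ≤ z) :
    (∑ i, (p i : ℝ)) * C.La l z ≤ C.B z p + (C.t - C.bt z) * C.bt p + C.B p (e l) +
      C.bt p ^ 2 / 2 := by
  have h1 : ∀ i, (p i : ℝ) * (C.La l z - C.B (e i) (e l) - C.b i ^ 2 / 2) ≤
      (p i : ℝ) * (C.B z (e i) + (C.t - C.bt z) * C.b i) := by
    intro i
    rcases Nat.eq_zero_or_pos (p i) with h0 | h0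
    · rw [h0]; simp
    · exact mul_le_mul_of_nonneg_left (lower_one hz (lt_of_lt_of_le h0 (hp i)))
        (Nat.cast_nonneg _)
  have h2 := sum_le_sum (s := univ) fun i _ => h1 i
  simp only [mul_sub, mul_add, sum_sub_distrib, sum_add_distrib] at h2
  have e1 : ∑ i, (p i : ℝ) * C.La l z = (∑ i, (p i : ℝ)) * C.La l z := by rw [sum_mul]
  have e2 : ∑ i, (p i : ℝ) * C.B (e i) (e l) = C.B p (e l) := by
    rw [B_e]
    exact sum_congr rfl fun i _ => by rw [B_ee]
  have e3 : ∑ i, (p i : ℝ) * C.B z (e i) = C.B z p := (B_expand z p).symm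
  have e4 : ∑ i, (p i : ℝ) * ((C.t - C.bt z) * C.b i) = (C.t - C.bt z) * C.bt p := by
    unfold bt
    rw [mul_sum]
    exact sum_congr rfl fun i _ => by ring
  have e5 : ∑ i, (p i : ℝ) * (C.b i ^ 2 / 2) ≤ C.bt p ^ 2 / 2 := by
    have h3 : ∀ i, (p i : ℝ) * (C.b i ^ 2 / 2) ≤ (C.b i * p i) * (C.bt p / 2) := by
      intro i
      rcases Nat.eq_zero_or_pos (p i) with h0 | h0
      · rw [h0]; simp
      · have h4 : C.b i * (p i : ℝ) ≤ C.bt p :=
          single_le_sum (f := fun j => C.b j * (p j : ℝ))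
            (fun j _ => mul_nonneg (C.hb j) (Nat.cast_nonneg _)) (mem_univ i)
        have h5 : (1 : ℝ) ≤ p i := by exact_mod_cast h0
        have h6 : C.b i ≤ C.bt p := by nlinarith [C.hb i]
        have h7 := mul_nonneg (C.hb i) (Nat.cast_nonneg (α := ℝ) (p i))
        nlinarith
    refine (sum_le_sum fun i _ => h3 i).trans ?_
    rw [← sum_mul]
    change C.bt p * (C.bt p / 2) ≤ _
    apply le_of_eq
    ring
  rw [e1, e2, e3, e4] at h2
  linarith

theorem bt_sq_lt (hy : y ∈ C.Y) (hz : C.Zc l y z) (hz' : C.Zc l y z') :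
    C.bt (z - z') ^ 2 < 2 * C.La l z' := by
  obtain ⟨h1, h2⟩ := upper hy hz hz'
  have h3 := C.B_nonneg z' (z - z')
  have h4 := C.B_nonneg (z - z') (z - z')
  have h5 := C.bt_nonneg (z - z')
  nlinarith

theorem pair_real {s L L' τ τ' β β' zP z'P PP PP' Pl : ℝ}
    (h1 : s * L ≤ zP + τ * β + Pl + β ^ 2 / 2)
    (h2 : 2 * z'P + PP + 2 * τ' * β - β ^ 2 < 2 * L')
    (h3 : β ≤ τ') (h3' : 0 ≤ β) (h4 : zP = z'P + PP - PP') (h4' : τ = τ' - β + β')
    (h5 : β' ^ 2 < 2 * L) (h6 : Pl ≤ L) (h7 : 0 ≤ z'P) (h8 : 0 ≤ PP') :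
    (s - 2) * L < 2 * L' := by
  subst h4 h4'
  nlinarith [sq_nonneg (β - β'), mul_nonneg (sub_nonneg.2 h3) h3']

/-- **The pair inequality.** -/
theorem pair_ineq (hy : y ∈ C.Y) (hz : C.Zc l y z) (hz' : C.Zc l y z') :
    ((∑ i, ((z - z') i : ℝ)) - 2) * C.La l z < 2 * C.La l z' := by
  have hp : z - z' ≤ z := fun i => Nat.sub_le _ _
  have h1 := lower hz (z - z') hp
  obtain ⟨h2, h3⟩ := upper hy hz hz'
  have h5 := bt_sq_lt hy hz' hz
  have hswap := add_sub_swap (z := z) (z' := z')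
  have h4 : C.B z (z - z') = C.B z' (z - z') + C.B (z - z') (z - z') -
      C.B (z' - z) (z - z') := by
    have := congrArg (fun x => C.B x (z - z')) hswap
    simp only [B_add_left] at this
    linarith
  have h4' : C.t - C.bt z = C.t - C.bt z' - C.bt (z - z') + C.bt (z' - z) := by
    have := congrArg C.bt hswap
    rw [bt_add, bt_add] at this
    linarith
  have h6 : C.B (z - z') (e l) ≤ C.La l z :=
    (C.B_mono_left (e l) hp).trans (B_le_La hz)
  exact pair_real h1 h2 h3 (C.bt_nonneg _) h4 h4' h5 h6 (C.B_nonneg _ _) (C.B_nonneg _ _)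

/-- If `La` decreases much then a coordinate with a large entry disappears. -/
theorem exists_coord (hy : y ∈ C.Y) (hz : C.Zc l y z) (hz' : C.Zc l y z')
    (hL : 16 * C.La l z' ≤ C.La l z) :
    ∃ i, 0 < z i ∧ 7 * C.La l z ≤ 32 * C.Q i l := by
  have hpos := La_pos hy hz
  have h1 := pair_ineq hy hz hz'
  -- at most two units
  have h2 : (∑ i, (z - z') i) ≤ 2 := by
    by_contra hcon
    push Not at hcon
    have h3 : (3 : ℝ) ≤ ∑ i, ((z - z') i : ℝ) := by
      have : 3 ≤ ∑ i, (z - z') i := hcon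
      exact_mod_cast this
    nlinarith
  have h2R : (∑ i, ((z - z') i : ℝ)) ≤ 2 := by exact_mod_cast h2
  -- the product of the linear terms
  have h3 := bt_sq_lt hy hz' hz
  have h4 := bl_le_La hz'
  have h5 : C.b l * C.bt (z' - z) ≤ C.La l z / 2 := by
    have hb := C.hb l
    have hbt := C.bt_nonneg (z' - z)
    apply le_of_sq_le_sq _ (by linarith)
    have h6 : C.b l ^ 2 * C.bt (z' - z) ^ 2 ≤ (C.La l z / 8) * (2 * C.La l z) :=
      mul_le_mul (by linarith) h3.le (sq_nonneg _) (by linarith)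
    calc (C.b l * C.bt (z' - z)) ^ 2 = C.b l ^ 2 * C.bt (z' - z) ^ 2 := by ring
      _ ≤ (C.La l z / 8) * (2 * C.La l z) := h6
      _ = (C.La l z / 2) ^ 2 := by ring
  have hswap := add_sub_swap (z := z) (z' := z')
  have h6 : C.La l z - C.La l z' ≤ C.B (z - z') (e l) + C.b l * C.bt (z' - z) := by
    have e1 := congrArg (fun x => C.B x (e l)) hswap
    simp only [B_add_left] at e1
    have e2 := congrArg C.bt hswap
    rw [bt_add, bt_add] at e2
    have e3 := C.B_nonneg (z' - z) (e l)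
    have e4 := mul_nonneg (C.hb l) (C.bt_nonneg (z - z'))
    unfold La
    have e5 : C.bt z = C.bt z' + C.bt (z - z') - C.bt (z' - z) := by linarith
    rw [e5]
    nlinarith
  have h7 : 7 * C.La l z ≤ 16 * C.B (z - z') (e l) := by linarith
  by_contra hcon
  push Not at hcon
  have h8 : ∀ i, ((z - z') i : ℝ) * C.Q i l ≤ ((z - z') i : ℝ) * (7 * C.La l z / 32) := by
    intro i
    rcases Nat.eq_zero_or_pos ((z - z') i) with h0 | h0
    · rw [h0]; simp
    · apply mul_le_mul_of_nonneg_left _ (Nat.cast_nonneg _)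
      have : 0 < z i := lt_of_lt_of_le h0 (Nat.sub_le _ _)
      linarith [hcon i this]
  have h9 : C.B (z - z') (e l) ≤ (∑ i, ((z - z') i : ℝ)) * (7 * C.La l z / 32) := by
    rw [B_e, sum_mul]
    exact sum_le_sum fun i _ => h8 i
  -- strictness
  have h10 : ∃ i, 0 < (z - z') i := by
    by_contra hno
    push Not at hno
    have : C.B (z - z') (e l) = 0 := by
      rw [B_e]
      refine sum_eq_zero fun i _ => ?_
      have : (z - z') i = 0 := Nat.le_zero.1 (hno i)
      rw [this]; simp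
    rw [this] at h7
    linarith
  obtain ⟨i, hi⟩ := h10
  have h11 : C.B (z - z') (e l) < (∑ i, ((z - z') i : ℝ)) * (7 * C.La l z / 32) := by
    rw [B_e, sum_mul]
    refine sum_lt_sum (fun i _ => h8 i) ⟨i, mem_univ i, ?_⟩
    have : 0 < z i := lt_of_lt_of_le hi (Nat.sub_le _ _)
    have h12 := hcon i this
    apply mul_lt_mul_of_pos_left (by linarith)
    exact_mod_cast hi
  nlinarith

theorem coord_zero {z'' : Fin n → ℕ} {i : Fin n} {L : ℝ} (hL : 0 < L)
    (hz'' : C.Zc l y z'') (h1 : 7 * L ≤ 32 * C.Q i l) (h2 : 16 * C.La l z'' ≤ L) :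
    z'' i = 0 := by
  by_contra hne
  have h3 : e i ≤ z'' := by
    intro j
    by_cases hj : j = i
    · subst hj
      simp only [e, Pi.single_eq_same]
      omega
    · simp [e, Pi.single_eq_of_ne hj]
  have h4 := C.B_mono_left (e l) h3
  rw [B_ee] at h4
  have h5 := B_le_La hz''
  linarith

end pairs

end SCfg

end Q220.DualBound
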