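import Pool.Agent.Q220.DualBound.Soc

/-!
# Second order cone inequalities: the counting
-/

set_option autoImplicit false

open Finset
open scoped Classical

noncomputable section

namespace Q220.DualBound.SCfg

/-- The vectors with coordinate sum at most `p`. -/
def D (n : ℕ) : ℕ → Finset (Fin n → ℕ)
  | 0 => {0}
  | p + 1 => ((D n p) ×ˢ (univ : Finset (Option (Fin n)))).image
      (fun q => q.1 + q.2.elim 0 e)

theorem card_D (n p : ℕ) : (D n p).card ≤ (n + 1) ^ p := by
  induction p with
  | zero => simp [D]
  | succ p ih =>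
    unfold D
    refine card_image_le.trans ?_
    rw [card_product, card_univ, Fintype.card_option, Fintype.card_fin, pow_succ]
    exact Nat.mul_le_mul_right _ ih

theorem sum_e {n : ℕ} (i : Fin n) : ∑ j, (e i : Fin n → ℕ) j = 1 := by
  unfold e
  rw [sum_eq_single i]
  · simp
  · intro j _ hj
    simp [Pi.single_eq_of_ne hj]
  · simp

theorem sub_add_e {n : ℕ} {x : Fin n → ℕ} {i : Fin n} (h : 0 < x i) : x - e i + e i = x := by
  funext j
  simp only [Pi.add_apply, Pi.sub_apply]
  by_cases hj : j = i
  · subst hj
    simp only [e, Pi.single_eq_same]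
    omega
  · have : (e i : Fin n → ℕ) j = 0 := by simp [e, Pi.single_eq_of_ne hj]
    rw [this]
    simp

theorem mem_D {n : ℕ} (p : ℕ) : ∀ P : Fin n → ℕ, ∑ i, P i ≤ p → P ∈ D n p := by
  induction p with
  | zero =>
    intro P hP
    have : P = 0 := by
      funext i
      have := single_le_sum (f := P) (fun j _ => Nat.zero_le _) (mem_univ i)
      simp only [Pi.zero_apply]
      omega
    simp [D, this]
  | succ p ih =>
    intro P hP
    rw [D, mem_image]
    by_cases h1 : ∑ i, P i ≤ p
    · exact ⟨(P, none), by simp [ih P h1], by simp⟩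
    · obtain ⟨i, hi⟩ : ∃ i, 0 < P i := by
        by_contra hcon
        push Not at hcon
        apply h1
        have : ∑ i, P i = 0 := sum_eq_zero fun i _ => Nat.le_zero.1 (hcon i)
        omega
      have h2 := sub_add_e hi
      have h3 : ∑ j, (P - e i) j + 1 = ∑ j, P j := by
        rw [← sum_e i, ← sum_add_distrib]
        exact sum_congr rfl fun j _ => congrFun h2 j
      refine ⟨(P - e i, some i), ?_, ?_⟩
      · simp only [mem_product, mem_univ, and_true]
        apply ih
        omega
      · exact h2

variable {n : ℕ} {C : SCfg n} {l : Fin n} {y : Fin n → ℕ}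

theorem natsum_le {L L' : ℝ} {s k : ℕ} (hL : 0 < L) (h : ((s : ℝ) - 2) * L < 2 * L')
    (h' : 2 * L' ≤ ((k : ℝ) - 1) * L) : s ≤ k := by
  by_contra hcon
  push Not at hcon
  have h1 : ((k : ℝ) + 1) ≤ s := by exact_mod_cast hcon
  nlinarith

/-- A window in which `La` varies by a factor of at most two. -/
theorem window (hy : y ∈ C.Y) (W : Finset (Fin n → ℕ)) (hW : ∀ z ∈ W, C.Zc l y z)
    (h2 : ∀ z ∈ W, ∀ z' ∈ W, C.La l z ≤ 2 * C.La l z') : W.card ≤ (n + 1) ^ 8 := by
  rcases W.eq_empty_or_nonempty with he | hne
  · rw [he, card_empty]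
    exact Nat.zero_le _
  obtain ⟨z0, hz0, hmax⟩ := exists_max_image W (C.La l) hne
  have hsub : W ⊆ ((D n 3) ×ˢ (D n 5)).image (fun q => z0 - q.1 + q.2) := by
    intro z hz
    have hpos := La_pos hy (hW z hz)
    have hpos0 := La_pos hy (hW z0 hz0)
    have h3 := pair_ineq hy (hW z0 hz0) (hW z hz)
    have h4 := pair_ineq hy (hW z hz) (hW z0 hz0)
    have h5 := hmax z hz
    have h6 := h2 z0 hz0 z hz
    rw [mem_image]
    refine ⟨(z0 - z, z - z0), ?_, ?_⟩
    · rw [mem_product]
      constructor
      · apply mem_D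
        rw [← Nat.cast_sum] at h3
        apply natsum_le hpos0 h3
        push_cast
        linarith
      · apply mem_D
        rw [← Nat.cast_sum] at h4
        apply natsum_le hpos h4
        push_cast
        linarith
    · funext j
      simp only [Pi.add_apply, Pi.sub_apply]
      omega
  refine (card_le_card hsub).trans (card_image_le.trans ?_)
  rw [card_product]
  calc (D n 3).card * (D n 5).card ≤ (n + 1) ^ 3 * (n + 1) ^ 5 :=
        Nat.mul_le_mul (card_D n 3) (card_D n 5)
    _ = (n + 1) ^ 8 := by ring

/-- A window in which `La` varies by a factor of less than `16`. -/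
theorem window16 (hy : y ∈ C.Y) (W : Finset (Fin n → ℕ)) (hW : ∀ z ∈ W, C.Zc l y z) (M : ℝ)
    (h1 : ∀ z ∈ W, C.La l z ≤ M) (h2 : ∀ z ∈ W, M < 16 * C.La l z) :
    W.card ≤ 4 * (n + 1) ^ 8 := by
  have hsub : W ⊆ (univ : Finset (Fin 4)).biUnion fun k =>
      W.filter fun z => 2 ^ (k : ℕ) * C.La l z ≤ M ∧ M < 2 ^ ((k : ℕ) + 1) * C.La l z := by
    intro z hz
    have h3 := h1 z hz
    have h4 := h2 z hz
    simp only [mem_biUnion, mem_univ, true_and, mem_filter]
    by_cases a1 : M < 2 * C.La l z
    · exact ⟨0, hz, by simpa using h3, by simpa using a1⟩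
    by_cases a2 : M < 4 * C.La l z
    · refine ⟨1, hz, ?_, ?_⟩
      · norm_num
        linarith
      · norm_num
        linarith
    by_cases a3 : M < 8 * C.La l z
    · refine ⟨2, hz, ?_, ?_⟩
      · norm_num
        linarith
      · norm_num
        linarith
    · refine ⟨3, hz, ?_, ?_⟩
      · norm_num
        linarith
      · norm_num
        linarith
  refine (card_le_card hsub).trans ((card_biUnion_le_card_mul _ _ ((n + 1) ^ 8)
    fun k _ => ?_).trans ?_)
  · apply window hy
    · intro z hz
      exact hW z (mem_filter.1 hz).1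
    · intro z hz z' hz'
      have h3 := (mem_filter.1 hz).2.1
      have h4 := (mem_filter.1 hz').2.2
      have h5 : (0 : ℝ) < 2 ^ (k : ℕ) := by positivity
      have h6 : 2 ^ (k : ℕ) * C.La l z < 2 ^ (k : ℕ) * (2 * C.La l z') := by
        rw [pow_succ] at h4
        linarith
      exact (lt_of_mul_lt_mul_left h6 h5.le).le
  · simp

theorem class_bound (hy : y ∈ C.Y) (m : ℕ) : ∀ (S : Finset (Fin n)) (W : Finset (Fin n → ℕ)),
    n - S.card = m → (∀ z ∈ W, C.Zc l y z) → (∀ z ∈ W, ∀ i ∈ S, z i = 0) →
    W.card ≤ (m + 1) * (4 * (n + 1) ^ 8) := by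
  induction m using Nat.strong_induction_on with
  | _ m ih =>
    intro S W hS hW hz0
    rcases W.eq_empty_or_nonempty with he | hne
    · rw [he, card_empty]
      exact Nat.zero_le _
    obtain ⟨z0, hz0W, hmax⟩ := exists_max_image W (C.La l) hne
    set W1 := W.filter fun z => C.La l z0 < 16 * C.La l z with hW1
    set W2 := W.filter fun z => ¬ C.La l z0 < 16 * C.La l z with hW2
    have hcard : W.card = W1.card + W2.card :=
      (card_filter_add_card_filter_not _).symm
    have h1 : W1.card ≤ 4 * (n + 1) ^ 8 := by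
      apply window16 hy W1 (fun z hz => hW z (mem_filter.1 hz).1) (C.La l z0)
      · intro z hz
        exact hmax z (mem_filter.1 hz).1
      · intro z hz
        exact (mem_filter.1 hz).2
    rcases W2.eq_empty_or_nonempty with he2 | ⟨z', hz'⟩
    · rw [hcard, he2, card_empty]
      nlinarith
    · rw [hW2, mem_filter] at hz'
      obtain ⟨i, hi, hQ⟩ := exists_coord hy (hW z0 hz0W) (hW z' hz'.1) (not_lt.1 hz'.2)
      have hiS : i ∉ S := by
        intro h2
        have := hz0 z0 hz0W i h2
        omega
      have hSc : (insert i S).card = S.card + 1 := card_insert_of_notMem hiS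
      have hle : (insert i S).card ≤ n := by
        have := card_le_univ (insert i S)
        rwa [Fintype.card_fin] at this
      have h2 := ih (m - 1) (by omega) (insert i S) W2 (by omega)
        (fun z hz => hW z (mem_filter.1 hz).1) (by
          intro z hz j hj
          rw [mem_insert] at hj
          rcases hj with rfl | hj
          · exact coord_zero (La_pos hy (hW z0 hz0W)) (hW z (mem_filter.1 hz).1) hQ
              (not_lt.1 (mem_filter.1 hz).2)
          · exact hz0 z (mem_filter.1 hz).1 j hj)
      have h3 : m - 1 + 1 = m := by omega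
      rw [h3] at h2
      rw [hcard]
      nlinarith

theorem update_eq_sub {x : Fin n → ℕ} (i : Fin n) :
    Function.update x i (x i - 1) = x - e i := by
  funext j
  by_cases hj : j = i
  · subst hj
    simp [e]
  · simp [e, Function.update_of_ne hj, Pi.single_eq_of_ne hj]

theorem G_pos_of {C : SCfg n} {x : Fin n → ℕ} (hx : x ∈ C.X) (ht : C.bt x ≤ C.t) : 0 < C.G x := by
  rcases C.hX x hx with h | h
  · exact absurd ht (not_le.2 h)
  · unfold G bt B
    linarith

variable (C)

/-- The infeasible vectors of the first kind. -/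
def X1 : Finset (Fin n → ℕ) := C.X.filter fun x => x ≠ 0 ∧ C.bt x ≤ C.t

/-- The infeasible vectors of the second kind. -/
def X2 : Finset (Fin n → ℕ) := C.X.filter fun x => x ≠ 0 ∧ C.t < C.bt x

theorem supp_nonempty {x : Fin n → ℕ} (hx : x ≠ 0) :
    (univ.filter fun i => 0 < x i).Nonempty := by
  rw [nonempty_iff_ne_empty]
  intro he
  apply hx
  funext i
  by_contra hne
  have : i ∈ univ.filter fun i => 0 < x i := by
    simp only [mem_filter, mem_univ, true_and]
    exact Nat.pos_of_ne_zero hne
  rw [he] at this
  exact absurd this (notMem_empty _)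

theorem card_X1 : C.X1.card ≤ n * C.Y.card * (4 * (n + 1) ^ 9) := by
  have hsub : C.X1 ⊆ ((univ : Finset (Fin n)) ×ˢ C.Y).biUnion fun p =>
      ((C.X.image fun x => x - e p.1).filter (C.Zc p.1 p.2)).image fun z => z + e p.1 := by
    intro x hx
    rw [X1, mem_filter] at hx
    obtain ⟨hx, hx0, hxt⟩ := hx
    obtain ⟨l, hl, hmax⟩ := exists_max_image _ (fun i => C.G (x - e i)) (supp_nonempty hx0)
    rw [mem_filter] at hl
    obtain ⟨y, hy, hle⟩ := C.hP x hx l hl.2
    rw [update_eq_sub] at hle
    have hxe := sub_add_e hl.2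
    simp only [mem_biUnion, mem_image, mem_filter]
    refine ⟨(l, y), by simp [hy], x - e l, ⟨⟨x, hx, rfl⟩, ?_⟩, hxe⟩
    refine ⟨by rw [hxe]; exact hx, by rw [hxe]; exact hxt, by rw [hxe]; exact G_pos_of hx hxt,
      ?_, hle, ?_⟩
    · intro i w hw
      rw [hxe] at hw
      have h1 : 0 < x i := by
        rw [← hw]
        simp [e]
      have h2 : w = x - e i := by
        rw [← hw]
        funext j
        simp
      rw [h2]
      exact hmax i (by simp [h1])
    · have h1 : (x - e l) l ≤ y l := hle l
      have h2 : (x - e l) l + 1 = x l := by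
        have := congrFun hxe l
        simp only [Pi.add_apply] at this
        rw [← this]
        simp [e]
      have h3 : y l < x l := by
        by_contra hcon
        push Not at hcon
        apply C.hXY x hx y hy
        intro j
        by_cases hj : j = l
        · subst hj; exact hcon
        · have h4 : (x - e l) j ≤ y j := hle j
          have h5 : (e l : Fin n → ℕ) j = 0 := by simp [e, Pi.single_eq_of_ne hj]
          rw [Pi.sub_apply, h5] at h4
          exact h4
      change (x - e l) l = y l
      omega
  refine (card_le_card hsub).trans ((card_biUnion_le_card_mul _ _ (4 * (n + 1) ^ 9)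
    fun p hp => ?_).trans ?_)
  · rw [mem_product] at hp
    refine card_image_le.trans ?_
    have := class_bound (C := C) (l := p.1) (y := p.2) hp.2 n ∅
      ((C.X.image fun x => x - e p.1).filter (C.Zc p.1 p.2)) (by simp)
      (fun z hz => (mem_filter.1 hz).2) (by simp)
    calc _ ≤ (n + 1) * (4 * (n + 1) ^ 8) := this
      _ = 4 * (n + 1) ^ 9 := by ring
  · rw [card_product, card_univ, Fintype.card_fin]

theorem card_X2 : C.X2.card ≤ n * C.Y.card := by
  have hsub : C.X2 ⊆ ((univ : Finset (Fin n)) ×ˢ C.Y).image fun p => fun j =>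
      if j = p.1 then p.2 p.1 + 1 else if C.b p.1 ≤ C.b j then p.2 j else 0 := by
    intro x hx
    rw [X2, mem_filter] at hx
    obtain ⟨hx, hx0, hxt⟩ := hx
    obtain ⟨l, hl, hmin⟩ := exists_min_image _ C.b (supp_nonempty hx0)
    rw [mem_filter] at hl
    obtain ⟨y, hy, hle⟩ := C.hP x hx l hl.2
    rw [update_eq_sub] at hle
    have hbty : C.bt y ≤ C.t := (C.hY y hy).1
    have h1 : ∀ j, j ≠ l → x j ≤ y j := by
      intro j hj
      have h4 : (x - e l) j ≤ y j := hle j
      have h5 : (e l : Fin n → ℕ) j = 0 := by simp [e, Pi.single_eq_of_ne hj]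
      rwa [Pi.sub_apply, h5] at h4
    have h2 : x l ≤ y l + 1 := by
      have h4 : (x - e l) l ≤ y l := hle l
      simp only [Pi.sub_apply, e, Pi.single_eq_same] at h4
      omega
    have h3 : y l < x l := by
      by_contra hcon
      push Not at hcon
      apply C.hXY x hx y hy
      intro j
      by_cases hj : j = l
      · subst hj; exact hcon
      · exact h1 j hj
    rw [mem_image]
    refine ⟨(l, y), by simp [hy], ?_⟩
    funext j
    dsimp only
    split_ifs with c1 c2
    · rw [c1]; omega
    · have h4 := h1 j c1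
      by_contra hne
      have h5 : x + e j ≤ y + e l := by
        intro i
        simp only [Pi.add_apply]
        by_cases hi : i = l
        · subst hi
          have : (e j : Fin n → ℕ) i = 0 := by simp [e, Pi.single_eq_of_ne (Ne.symm c1)]
          rw [this]
          simp only [e, Pi.single_eq_same]
          omega
        · by_cases hi' : i = j
          · subst hi'
            have : (e l : Fin n → ℕ) i = 0 := by simp [e, Pi.single_eq_of_ne hi]
            rw [this]
            simp only [e, Pi.single_eq_same]
            omega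
          · have e1 : (e l : Fin n → ℕ) i = 0 := by simp [e, Pi.single_eq_of_ne hi]
            have e2 : (e j : Fin n → ℕ) i = 0 := by simp [e, Pi.single_eq_of_ne hi']
            rw [e1, e2]
            exact h1 i hi
      have h6 := C.bt_mono h5
      rw [bt_add, bt_add, bt_e, bt_e] at h6
      linarith
    · by_contra hne
      have h4 := hmin j (by
        simp only [mem_filter, mem_univ, true_and]
        omega)
      exact c2 h4
  refine (card_le_card hsub).trans (card_image_le.trans ?_)
  rw [card_product, card_univ, Fintype.card_fin]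

/-- **The polynomial bound.** -/
theorem card_X_le : C.X.card ≤ 1 + 5 * C.Y.card * (n + 1) ^ 10 := by
  have hsub : C.X ⊆ {0} ∪ (C.X1 ∪ C.X2) := by
    intro x hx
    simp only [mem_union, mem_singleton, X1, X2, mem_filter]
    by_cases h0 : x = 0
    · exact Or.inl h0
    · rcases le_or_gt (C.bt x) C.t with h1 | h1
      · exact Or.inr (Or.inl ⟨hx, h0, h1⟩)
      · exact Or.inr (Or.inr ⟨hx, h0, h1⟩)
  have h1 := (card_le_card hsub).trans (card_union_le _ _)
  have h2 := card_union_le C.X1 C.X2
  have h3 := C.card_X1
  have h4 := C.card_X2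
  rw [card_singleton] at h1
  have h5 : n * C.Y.card * (4 * (n + 1) ^ 9) ≤ 4 * C.Y.card * (n + 1) ^ 10 := by
    calc n * C.Y.card * (4 * (n + 1) ^ 9) = 4 * C.Y.card * (n + 1) ^ 9 * n := by ring
      _ ≤ 4 * C.Y.card * (n + 1) ^ 9 * (n + 1) := Nat.mul_le_mul_left _ (Nat.le_succ n)
      _ = _ := by ring
  have h6 : n * C.Y.card ≤ C.Y.card * (n + 1) ^ 10 := by
    have : n ≤ (n + 1) ^ 10 := (Nat.le_succ n).trans (Nat.le_self_pow (by norm_num) _)
    calc n * C.Y.card = C.Y.card * n := by ring
      _ ≤ _ := Nat.mul_le_mul_left _ this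
  have h7 : 5 * C.Y.card * (n + 1) ^ 10 = 4 * C.Y.card * (n + 1) ^ 10 +
      C.Y.card * (n + 1) ^ 10 := by ring
  omega

end Q220.DualBound.SCfg
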