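import Pool.Agent.Q220.DualBound.SocCount

/-!
# The dual bound for second order cone inequalities
-/

set_option autoImplicit false

open Finset
open scoped Classical

noncomputable section

namespace Q220.DualBound

variable {n : ℕ}

/-- The function `f x = ‖A x‖ + b x` of a second order cone inequality with `d` rows; the norm is
the Euclidean norm. -/
def socFun {d : ℕ} (A : Fin d → Fin n → ℝ) (b : Fin n → ℝ) (x : Fin n → ℕ) : ℝ :=
  Real.sqrt (∑ r, (∑ j, A r j * (x j : ℝ)) ^ 2) + ∑ j, b j * (x j : ℝ)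

theorem sum_sq_eq {d : ℕ} (A : Fin d → Fin n → ℝ) (x : Fin n → ℕ) :
    ∑ r, (∑ j, A r j * (x j : ℝ)) ^ 2 =
      ∑ i, ∑ j, (∑ r, A r i * A r j) * (x i : ℝ) * (x j : ℝ) := by
  simp only [pow_two, sum_mul_sum]
  rw [sum_comm]
  refine sum_congr rfl fun i _ => ?_
  rw [sum_comm]
  refine sum_congr rfl fun j _ => ?_
  rw [sum_mul, sum_mul]
  exact sum_congr rfl fun r _ => by ring

theorem socFun_le {d : ℕ} (A : Fin d → Fin n → ℝ) (b : Fin n → ℝ) (t : ℝ) (x : Fin n → ℕ) :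
    socFun A b x ≤ t ↔ (∑ j, b j * (x j : ℝ)) ≤ t ∧
      ∑ i, ∑ j, (∑ r, A r i * A r j) * (x i : ℝ) * (x j : ℝ) ≤
        (t - ∑ j, b j * (x j : ℝ)) ^ 2 := by
  unfold socFun
  rw [← sum_sq_eq, ← le_sub_iff_add_le, Real.sqrt_le_iff, sub_nonneg]

theorem soc_card {d : ℕ} (A : Fin d → Fin n → ℝ) (b : Fin n → ℝ) (t : ℝ)
    (hA : ∀ r j, 0 ≤ A r j) (hb : ∀ j, 0 ≤ b j) (X Y : Finset (Fin n → ℕ))
    (hX : ∀ x ∈ X, ¬ socFun A b x ≤ t) (hY : ∀ y ∈ Y, socFun A b y ≤ t)
    (hXY : ∀ x ∈ X, ∀ y ∈ Y, ¬ x ≤ y)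
    (hP : ∀ x ∈ X, ∀ j, 0 < x j → ∃ y ∈ Y, Function.update x j (x j - 1) ≤ y) :
    X.card ≤ 1 + 5 * Y.card * (n + 1) ^ 10 :=
  SCfg.card_X_le
    { Q := fun i j => ∑ r, A r i * A r j
      b := b
      t := t
      X := X
      Y := Y
      hQ := fun i j => sum_nonneg fun r _ => mul_nonneg (hA r i) (hA r j)
      hs := fun i j => sum_congr rfl fun r _ => mul_comm _ _
      hb := hb
      hX := fun x hx => by
        have := hX x hx
        rw [socFun_le, not_and_or, not_le, not_le] at this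
        exact this
      hY := fun y hy => (socFun_le A b t y).1 (hY y hy)
      hXY := hXY
      hP := hP }

theorem soc_system {r : ℕ} (d : Fin r → ℕ) (A : ∀ s, Fin (d s) → Fin n → ℝ)
    (b : Fin r → Fin n → ℝ) (t : Fin r → ℝ) (c : Fin n → ℕ) (Y : Finset (Fin n → ℕ))
    (hA : ∀ s i j, 0 ≤ A s i j) (hb : ∀ s j, 0 ≤ b s j)
    (hY : (Y : Set (Fin n → ℕ)) ⊆ maxFeasible c fun x => ∀ s, socFun (A s) (b s) x ≤ t s) :
    (minNonDominated c Y ∩ minNonDominated c
      (maxFeasible c fun x => ∀ s, socFun (A s) (b s) x ≤ t s)).encard ≤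
      ((r * (1 + 5 * Y.card * (n + 1) ^ 10) : ℕ) : ℕ∞) := by
  set P : (Fin n → ℕ) → Prop := fun x => ∀ s, socFun (A s) (b s) x ≤ t s with hPdef
  have hfin : (minNonDominated c Y ∩ minNonDominated c (maxFeasible c P)).Finite :=
    (finite_box c).subset fun x hx => hx.1.1.1
  set Z := hfin.toFinset with hZ
  have hmem : ∀ x, x ∈ Z ↔ x ∈ minNonDominated c Y ∧
      x ∈ minNonDominated c (maxFeasible c P) := by
    intro x
    rw [hZ, Set.Finite.mem_toFinset, Set.mem_inter_iff]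
  have hsub : Z ⊆ univ.biUnion fun s => Z.filter fun x => ¬ socFun (A s) (b s) x ≤ t s := by
    intro x hx
    have h1 := not_feasible c P ((hmem x).1 hx).2
    rw [hPdef, not_forall] at h1
    obtain ⟨s, hs⟩ := h1
    rw [mem_biUnion]
    exact ⟨s, mem_univ _, mem_filter.2 ⟨hx, hs⟩⟩
  have hcard : Z.card ≤ r * (1 + 5 * Y.card * (n + 1) ^ 10) := by
    refine (card_le_card hsub).trans ((card_biUnion_le_card_mul _ _
      (1 + 5 * Y.card * (n + 1) ^ 10) fun s _ => ?_).trans ?_)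
    · apply soc_card (A s) (b s) (t s) (hA s) (hb s)
      · intro x hx
        exact (mem_filter.1 hx).2
      · intro y hy
        exact (hY hy).2.1 s
      · intro x hx y hy
        exact ((hmem x).1 (mem_filter.1 hx).1).1.1.2 y hy
      · intro x hx j hj
        exact exists_pred c Y ((hmem x).1 (mem_filter.1 hx).1).1 hj
    · simp
  have : (minNonDominated c Y ∩ minNonDominated c (maxFeasible c P)).encard = Z.card := by
    rw [hfin.encard_eq_coe_toFinset_card]
  rw [this]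
  exact_mod_cast hcard

theorem soc_bound {d : ℕ} (A : Fin d → Fin n → ℝ) (b : Fin n → ℝ) (t : ℝ) (c : Fin n → ℕ)
    (Y : Finset (Fin n → ℕ)) (hA : ∀ i j, 0 ≤ A i j) (hb : ∀ j, 0 ≤ b j)
    (hY : (Y : Set (Fin n → ℕ)) ⊆ maxFeasible c fun x => socFun A b x ≤ t) :
    (minNonDominated c Y ∩ minNonDominated c
      (maxFeasible c fun x => socFun A b x ≤ t)).encard ≤
      ((1 + 5 * Y.card * (n + 1) ^ 10 : ℕ) : ℕ∞) := by
  have key : (fun x : Fin n → ℕ => socFun A b x ≤ t) = fun x => ∀ s : Fin 1,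
      socFun ((fun _ : Fin 1 => A) s) ((fun _ : Fin 1 => b) s) x ≤ (fun _ : Fin 1 => t) s := by
    funext x
    exact propext ⟨fun h _ => h, fun h => h 0⟩
  rw [key] at hY ⊢
  have := soc_system (fun _ : Fin 1 => d) (fun _ => A) (fun _ => b) (fun _ => t) c Y
    (fun _ => hA) (fun _ => hb) hY
  rwa [one_mul] at this

end Q220.DualBound
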